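import Pool.Agent.Lib_MP_22d2c8_tw.Defs

/-!
PIECE P2: random colouring, second moment.
-/

namespace Pool.Agent.Lib_MP_22d2c8_tw

open Finset

section Colour

variable {Q : Type} [Fintype Q] [DecidableEq Q]

/-- the indicator that the colouring avoids the colour `j` on `E` -/
noncomputable def avo {p : ℕ} (E : Finset Q) (j : Fin p) (χ : Q → Fin p) : ℝ :=
  ∏ q, if q ∈ E ∧ χ q = j then 0 else 1

theorem avo_eq {p : ℕ} (E : Finset Q) (j : Fin p) (χ : Q → Fin p) :
    avo E j χ = if ∀ q ∈ E, χ q ≠ j then 1 else 0 := by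
  unfold avo
  split_ifs with h
  · refine Finset.prod_eq_one fun q _ => ?_
    rw [if_neg]
    rintro ⟨h1, h2⟩
    exact h q h1 h2
  · push Not at h
    obtain ⟨q, hq, hqj⟩ := h
    exact Finset.prod_eq_zero (Finset.mem_univ q) (if_pos ⟨hq, hqj⟩)

theorem avo_mul {p : ℕ} (E F : Finset Q) (j : Fin p) (χ : Q → Fin p) :
    avo E j χ * avo F j χ = avo (E ∪ F) j χ := by
  unfold avo
  rw [← Finset.prod_mul_distrib]
  refine Finset.prod_congr rfl fun q _ => ?_
  by_cases h1 : χ q = j <;> by_cases h2 : q ∈ E <;> by_cases h3 : q ∈ F <;>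
    simp [h1, h2, h3]

theorem sum_avo {p : ℕ} (hp : 2 ≤ p) (E : Finset Q) (j : Fin p) :
    ∑ χ : Q → Fin p, avo E j χ = (p : ℝ) ^ Fintype.card Q * (1 - 1 / (p : ℝ)) ^ E.card := by
  have h1 := Finset.prod_univ_sum (fun _ : Q => (Finset.univ : Finset (Fin p)))
    (fun q c => if q ∈ E ∧ c = j then (0 : ℝ) else 1)
  rw [Fintype.piFinset_univ] at h1
  unfold avo
  rw [← h1]
  have hp0 : (p : ℝ) ≠ 0 := by
    have : p ≠ 0 := by omega
    exact_mod_cast this
  have h2 : ∀ q : Q, ∑ c : Fin p, (if q ∈ E ∧ c = j then (0 : ℝ) else 1) =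
      p * (if q ∈ E then (1 - 1 / (p : ℝ)) else 1) := by
    intro q
    by_cases hq : q ∈ E
    · simp only [hq, true_and, if_true]
      have h3 : ∑ c : Fin p, (if c = j then (0 : ℝ) else 1) =
          ∑ c : Fin p, ((1 : ℝ) - if c = j then 1 else 0) := by
        refine Finset.sum_congr rfl fun c _ => ?_
        split_ifs <;> ring
      rw [h3, Finset.sum_sub_distrib]
      simp
      field_simp
    · simp [hq]
  simp_rw [h2]
  rw [Finset.prod_mul_distrib, Finset.prod_const, Finset.card_univ]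
  congr 1
  rw [Finset.prod_ite, Finset.prod_const, Finset.prod_const_one, mul_one]
  congr 2
  ext q
  simp

end Colour

theorem exists_colouring {I Q : Type} [Fintype I] [DecidableEq I] [Fintype Q] [DecidableEq Q]
    (D : I → Finset Q) (p : ℕ) (hp : 2 ≤ p) (R Δ : ℕ)
    (hR : ∑ i, (D i).card ≤ R)
    (hΔ : ∀ q, (univ.filter fun i => q ∈ D i).card ≤ Δ)
    (μ : ℝ) (hμ0 : 0 ≤ μ) (hμ : μ ≤ ∑ i, (1 - 1 / (p : ℝ)) ^ (D i).card)
    (hbig : 4 * (p : ℝ) * Δ * R < μ ^ 2) :
    ∃ χ : Q → Fin p, ∀ j, μ / 2 ≤ ((univ.filter fun i => ∀ q ∈ D i, χ q ≠ j).card : ℝ) := by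
  classical
  set x : ℝ := 1 - 1 / (p : ℝ) with hx
  have hp1 : (1 : ℝ) ≤ p := by
    have : 1 ≤ p := by omega
    exact_mod_cast this
  have hx0 : 0 ≤ x := by
    rw [hx, sub_nonneg, div_le_one (by linarith)]
    exact hp1
  have hx1 : x ≤ 1 := by
    rw [hx]
    have : (0 : ℝ) ≤ 1 / p := by positivity
    linarith
  set μ' : ℝ := ∑ i, x ^ (D i).card with hμ'
  set Ω : ℝ := (p : ℝ) ^ Fintype.card Q with hΩ
  have hΩ0 : 0 < Ω := by positivity
  -- the counting variable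
  set N : Fin p → (Q → Fin p) → ℝ := fun j χ => ∑ i, avo (D i) j χ with hN
  have hNcard : ∀ j χ, N j χ = ((univ.filter fun i => ∀ q ∈ D i, χ q ≠ j).card : ℝ) := by
    intro j χ
    simp only [hN, avo_eq]
    rw [Finset.sum_ite]
    simp
  have hmean : ∀ j, ∑ χ, N j χ = Ω * μ' := by
    intro j
    simp only [hN]
    rw [Finset.sum_comm, hμ', Finset.mul_sum]
    exact Finset.sum_congr rfl fun i _ => sum_avo hp (D i) j
  have hsq : ∀ j, ∑ χ, N j χ ^ 2 = Ω * ∑ i, ∑ k, x ^ (D i ∪ D k).card := by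
    intro j
    simp only [hN, sq, Finset.sum_mul_sum, avo_mul]
    rw [Finset.sum_comm, Finset.mul_sum]
    refine Finset.sum_congr rfl fun i _ => ?_
    rw [Finset.sum_comm, Finset.mul_sum]
    exact Finset.sum_congr rfl fun k _ => sum_avo hp (D i ∪ D k) j
  -- number of intersecting pairs
  have hpairs : ∑ i, ∑ k, (x ^ (D i ∪ D k).card - x ^ (D i).card * x ^ (D k).card) ≤
      (Δ : ℝ) * R := by
    have h1 : ∀ i k, x ^ (D i ∪ D k).card - x ^ (D i).card * x ^ (D k).card ≤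
        ∑ q ∈ D i, if q ∈ D k then (1 : ℝ) else 0 := by
      intro i k
      have hnn : 0 ≤ ∑ q ∈ D i, if q ∈ D k then (1 : ℝ) else 0 :=
        Finset.sum_nonneg fun q _ => by split_ifs <;> norm_num
      by_cases hd : Disjoint (D i) (D k)
      · rw [Finset.card_union_of_disjoint hd, pow_add, sub_self]
        exact hnn
      · rw [Finset.not_disjoint_iff] at hd
        obtain ⟨q, hq1, hq2⟩ := hd
        have h2 : (1 : ℝ) ≤ ∑ q ∈ D i, if q ∈ D k then (1 : ℝ) else 0 := by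
          have h3 := Finset.single_le_sum (f := fun q => if q ∈ D k then (1 : ℝ) else 0)
            (fun q _ => by split_ifs <;> norm_num) hq1
          simp only [hq2, if_true] at h3
          exact h3
        have h3 : x ^ (D i ∪ D k).card ≤ 1 := pow_le_one₀ hx0 hx1
        have h4 : 0 ≤ x ^ (D i).card * x ^ (D k).card := by positivity
        linarith
    calc ∑ i, ∑ k, (x ^ (D i ∪ D k).card - x ^ (D i).card * x ^ (D k).card)
        ≤ ∑ i, ∑ k, ∑ q ∈ D i, (if q ∈ D k then (1 : ℝ) else 0) :=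
          Finset.sum_le_sum fun i _ => Finset.sum_le_sum fun k _ => h1 i k
      _ = ∑ i, ∑ q ∈ D i, ((univ.filter fun k => q ∈ D k).card : ℝ) := by
          refine Finset.sum_congr rfl fun i _ => ?_
          rw [Finset.sum_comm]
          refine Finset.sum_congr rfl fun q _ => ?_
          rw [Finset.sum_ite]
          simp
      _ ≤ ∑ i, ∑ q ∈ D i, (Δ : ℝ) :=
          Finset.sum_le_sum fun i _ => Finset.sum_le_sum fun q _ => by exact_mod_cast hΔ q
      _ = (Δ : ℝ) * ∑ i, ((D i).card : ℝ) := by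
          rw [Finset.mul_sum]
          refine Finset.sum_congr rfl fun i _ => ?_
          rw [Finset.sum_const, nsmul_eq_mul, mul_comm]
      _ ≤ (Δ : ℝ) * R := by
          refine mul_le_mul_of_nonneg_left ?_ (by positivity)
          exact_mod_cast hR
  have hvar : ∀ j, ∑ χ, (N j χ - μ') ^ 2 ≤ Ω * (Δ * R) := by
    intro j
    have hcardΩ : (Fintype.card (Q → Fin p) : ℝ) = Ω := by
      rw [Fintype.card_fun, Fintype.card_fin, hΩ]
      push_cast
      rfl
    have h1 : ∑ χ, (N j χ - μ') ^ 2 = Ω * (∑ i, ∑ k, x ^ (D i ∪ D k).card - μ' ^ 2) := by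
      have h2 : ∀ χ, (N j χ - μ') ^ 2 = N j χ ^ 2 - 2 * μ' * N j χ + μ' ^ 2 := fun χ => by ring
      simp_rw [h2]
      rw [Finset.sum_add_distrib, Finset.sum_sub_distrib, ← Finset.mul_sum, hmean, hsq,
        Finset.sum_const, Finset.card_univ, nsmul_eq_mul, hcardΩ]
      ring
    rw [h1]
    refine mul_le_mul_of_nonneg_left ?_ hΩ0.le
    refine le_trans (le_of_eq ?_) hpairs
    simp_rw [Finset.sum_sub_distrib]
    congr 1
    rw [hμ', sq, Finset.sum_mul_sum]
  -- conclusion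
  by_contra hcon
  push Not at hcon
  have hμμ : μ ≤ μ' := hμ
  have hlow : ∀ χ : Q → Fin p, μ ^ 2 / 4 ≤ ∑ j, (N j χ - μ') ^ 2 := by
    intro χ
    obtain ⟨j, hj⟩ := hcon χ
    rw [← hNcard] at hj
    have h1 : μ ^ 2 / 4 ≤ (N j χ - μ') ^ 2 := by nlinarith
    refine h1.trans ?_
    exact Finset.single_le_sum (f := fun j => (N j χ - μ') ^ 2) (fun j _ => sq_nonneg _)
      (Finset.mem_univ j)
  have hcardΩ : (Fintype.card (Q → Fin p) : ℝ) = Ω := by
    rw [Fintype.card_fun, Fintype.card_fin, hΩ]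
    push_cast
    rfl
  have h1 : Ω * (μ ^ 2 / 4) ≤ Ω * (p * (Δ * R)) := by
    calc Ω * (μ ^ 2 / 4) = ∑ _χ : Q → Fin p, μ ^ 2 / 4 := by
          rw [Finset.sum_const, Finset.card_univ, nsmul_eq_mul, hcardΩ]
      _ ≤ ∑ χ : Q → Fin p, ∑ j, (N j χ - μ') ^ 2 := Finset.sum_le_sum fun χ _ => hlow χ
      _ = ∑ j, ∑ χ : Q → Fin p, (N j χ - μ') ^ 2 := Finset.sum_comm
      _ ≤ ∑ _j : Fin p, Ω * (Δ * R) := Finset.sum_le_sum fun j _ => hvar j
      _ = Ω * (p * (Δ * R)) := by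
          rw [Finset.sum_const, Finset.card_univ, Fintype.card_fin, nsmul_eq_mul]
          ring
  have h2 := le_of_mul_le_mul_left h1 hΩ0
  nlinarith

theorem mean_lower {I : Type} [Fintype I] (d : I → ℕ) (p : ℕ) (hp : 2 ≤ p) (R : ℕ)
    (hR : ∑ i, d i ≤ R) (hI : 0 < Fintype.card I) :
    (Fintype.card I : ℝ) * (2 : ℝ) ^ (-(2 * (R : ℝ) / (p * Fintype.card I))) ≤
      ∑ i, (1 - 1 / (p : ℝ)) ^ (d i) := by
  have hp2 : (2 : ℝ) ≤ p := by exact_mod_cast hp
  have hp0 : (0 : ℝ) < p := by linarith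
  have hI0 : (0 : ℝ) < Fintype.card I := by exact_mod_cast hI
  -- the base inequality
  have hbase : (2 : ℝ) ^ (-(2 / (p : ℝ))) ≤ 1 - 1 / (p : ℝ) := by
    have h1 := one_add_mul_self_le_rpow_one_add (s := -(1 / (p : ℝ))) (p := (p : ℝ) / 2)
      (by rw [neg_le_neg_iff, div_le_one hp0]; linarith) (by linarith)
    have h2 : 1 + (p : ℝ) / 2 * -(1 / (p : ℝ)) = 2⁻¹ := by field_simp; norm_num
    rw [h2] at h1
    have h3 : (0 : ℝ) ≤ 1 + -(1 / (p : ℝ)) := by
      have : 1 / (p : ℝ) ≤ 1 := by rw [div_le_one hp0]; linarith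
      linarith
    have h4 := Real.rpow_le_rpow (by norm_num) h1 (show (0 : ℝ) ≤ 2 / p by positivity)
    rw [← Real.rpow_mul h3] at h4
    have h5 : (p : ℝ) / 2 * (2 / p) = 1 := by field_simp
    rw [h5, Real.rpow_one, Real.inv_rpow (by norm_num), ← Real.rpow_neg (by norm_num)] at h4
    linarith
  have hterm : ∀ i, (2 : ℝ) ^ (-(2 * (d i : ℝ) / p)) ≤ (1 - 1 / (p : ℝ)) ^ (d i) := by
    intro i
    have h1 := pow_le_pow_left₀ (by positivity) hbase (d i)
    rw [← Real.rpow_natCast, ← Real.rpow_mul (by norm_num)] at h1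
    refine le_trans (le_of_eq ?_) h1
    congr 1
    ring
  have hjensen := (convexOn_rpow_left (b := (2 : ℝ)) (by norm_num)).map_sum_le
    (t := (Finset.univ : Finset I)) (w := fun _ => 1 / (Fintype.card I : ℝ))
    (p := fun i => -(2 * (d i : ℝ) / p)) (fun i _ => by positivity)
    (by rw [Finset.sum_const, Finset.card_univ, nsmul_eq_mul]; field_simp)
    (fun i _ => Set.mem_univ _)
  simp only [smul_eq_mul] at hjensen
  rw [← Finset.mul_sum, ← Finset.mul_sum] at hjensen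
  have h1 : (2 : ℝ) ^ (-(2 * (R : ℝ) / (p * Fintype.card I))) ≤
      (2 : ℝ) ^ (1 / (Fintype.card I : ℝ) * ∑ i, -(2 * (d i : ℝ) / p)) := by
    apply Real.rpow_le_rpow_of_exponent_le (by norm_num)
    have h2 : ∑ i, -(2 * (d i : ℝ) / p) = -(2 / p * ∑ i, (d i : ℝ)) := by
      rw [Finset.mul_sum, ← Finset.sum_neg_distrib]
      refine Finset.sum_congr rfl fun i _ => ?_
      ring
    rw [h2]
    have h3 : ∑ i, (d i : ℝ) ≤ R := by exact_mod_cast hR
    have h4 : 1 / (Fintype.card I : ℝ) * -(2 / p * ∑ i, (d i : ℝ)) =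
        -(2 / (p * Fintype.card I) * ∑ i, (d i : ℝ)) := by field_simp
    rw [h4, neg_le_neg_iff]
    calc 2 / (p * Fintype.card I : ℝ) * ∑ i, (d i : ℝ) ≤ 2 / (p * Fintype.card I : ℝ) * R :=
          mul_le_mul_of_nonneg_left h3 (by positivity)
      _ = _ := by ring
  calc (Fintype.card I : ℝ) * (2 : ℝ) ^ (-(2 * (R : ℝ) / (p * Fintype.card I)))
      ≤ (Fintype.card I : ℝ) * (1 / (Fintype.card I : ℝ) * ∑ i, (2 : ℝ) ^ (-(2 * (d i : ℝ) / p))) :=
        mul_le_mul_of_nonneg_left (h1.trans hjensen) hI0.le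
    _ = ∑ i, (2 : ℝ) ^ (-(2 * (d i : ℝ) / p)) := by field_simp
    _ ≤ _ := Finset.sum_le_sum fun i _ => hterm i

theorem exists_disjoint_sub {I : Type} [DecidableEq I] (p m : ℕ) (G : Fin p → Finset I)
    (h : ∀ j, p * m ≤ (G j).card) :
    ∃ e : Fin p × Fin m → I, Function.Injective e ∧ ∀ ja, e ja ∈ G ja.1 := by
  apply (Finset.all_card_le_biUnion_card_iff_exists_injective (fun ja : Fin p × Fin m => G ja.1)).1
  intro A
  rcases A.eq_empty_or_nonempty with rfl | ⟨ja, hja⟩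
  · simp
  · have h1 : A.card ≤ p * m := by
      have := Finset.card_le_univ A
      simpa using this
    have h2 : G ja.1 ⊆ A.biUnion fun ja : Fin p × Fin m => G ja.1 :=
      Finset.subset_biUnion_of_mem (fun ja : Fin p × Fin m => G ja.1) hja
    exact h1.trans ((h ja.1).trans (Finset.card_le_card h2))

end Pool.Agent.Lib_MP_22d2c8_tw
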