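import Pool.Agent.Lib_MP_22d2c8_tw.Defs

namespace Pool.Agent.Lib_MP_22d2c8_tw

open Finset

/-- Normalised box norm to the power `2 ^ p`. -/
noncomputable def box {Y : Type} [Fintype Y] : (p : ℕ) → ((Fin p → Y) → ℝ) → ℝ
  | 0, F => F (fun i => i.elim0)
  | p + 1, F => (∑ t : Y, ∑ t' : Y,
      box p (fun x => F (Fin.cons t x : Fin (p + 1) → Y) * F (Fin.cons t' x : Fin (p + 1) → Y))) /
        (Fintype.card Y : ℝ) ^ 2

namespace Box

lemma sum_finCons {Y : Type} [Fintype Y] (n : ℕ) (G : (Fin (n + 1) → Y) → ℝ) :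
    ∑ x, G x = ∑ x' : Fin n → Y, ∑ t : Y, G (Fin.cons t x' : Fin (n + 1) → Y) := by
  rw [← Equiv.sum_comp (Fin.consEquiv fun _ => Y) G, Fintype.sum_prod_type_right]
  rfl

/-- the power mean inequality for a double average -/
lemma power_mean {Y : Type} [Fintype Y] [Nonempty Y] (A : Y → Y → ℝ) (k : ℕ) (hk : k ≠ 0) :
    ((∑ t, ∑ t', |A t t'|) / (Fintype.card Y : ℝ) ^ 2) ^ k ≤
      (∑ t, ∑ t', |A t t'| ^ k) / (Fintype.card Y : ℝ) ^ 2 := by
  obtain ⟨n, hn⟩ := Nat.exists_eq_add_one_of_ne_zero hk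
  subst hn
  have hN : (0 : ℝ) < Fintype.card Y := by exact_mod_cast Fintype.card_pos
  have h := pow_sum_div_card_le_sum_pow (s := (univ : Finset (Y × Y)))
    (f := fun z => |A z.1 z.2|) (fun z _ => abs_nonneg _) n
  rw [Fintype.sum_prod_type, Fintype.sum_prod_type] at h
  simp only at h
  rw [card_univ, Fintype.card_prod] at h
  push_cast at h
  rw [div_le_iff₀ (by positivity)] at h
  rw [div_pow, div_le_div_iff₀ (by positivity) (by positivity)]
  calc (∑ t, ∑ t', |A t t'|) ^ (n + 1) * (Fintype.card Y : ℝ) ^ 2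
      ≤ ((∑ t, ∑ t', |A t t'| ^ (n + 1)) * ((Fintype.card Y : ℝ) * Fintype.card Y) ^ n) *
          (Fintype.card Y : ℝ) ^ 2 := mul_le_mul_of_nonneg_right h (by positivity)
    _ = _ := by ring

end Box

open Box

theorem corr_le_box {Y : Type} [Fintype Y] [Nonempty Y] (p : ℕ)
    (F : (Fin (p + 1) → Y) → ℝ) (φ : Fin (p + 1) → (Fin (p + 1) → Y) → ℝ)
    (hφ1 : ∀ j x, |φ j x| ≤ 1)
    (hφ : ∀ j x x', (∀ i, i ≠ j → x i = x' i) → φ j x = φ j x') :
    |(∑ x, F x * ∏ j, φ j x) / (Fintype.card Y : ℝ) ^ (p + 1)| ^ (2 ^ (p + 1)) ≤ box (p + 1) F := by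
  have hN : (0 : ℝ) < Fintype.card Y := by exact_mod_cast Fintype.card_pos
  induction p with
  | zero =>
    obtain ⟨y⟩ := ‹Nonempty Y›
    have hc : ∀ x, φ 0 x = φ 0 (fun _ => y) := fun x => hφ 0 x _ fun i hi =>
      absurd (Fin.fin_one_eq_zero i) hi
    have h1 : ∑ x, F x * ∏ j, φ j x = φ 0 (fun _ => y) *
        ∑ t : Y, F (Fin.cons t (fun i => i.elim0) : Fin 1 → Y) := by
      rw [sum_finCons 0]
      rw [Fintype.sum_unique (fun x' : Fin 0 → Y => ∑ t : Y,
        F (Fin.cons t x' : Fin 1 → Y) * ∏ j, φ j (Fin.cons t x' : Fin 1 → Y)), mul_sum]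
      refine sum_congr rfl fun t _ => ?_
      have h2 : (default : Fin 0 → Y) = fun i => i.elim0 := Subsingleton.elim _ _
      rw [h2]
      have h3 : ∏ j, φ j (Fin.cons t (fun i => i.elim0) : Fin 1 → Y) = φ 0 (fun _ => y) := by
        rw [Fin.prod_univ_one]; exact hc _
      rw [h3, mul_comm]
    rw [h1]
    simp only [box, zero_add, pow_one, ← mul_sum, ← sum_mul]
    set s := ∑ t : Y, F (Fin.cons t (fun i => i.elim0) : Fin 1 → Y) with hs
    rw [sq_abs, div_pow, mul_pow, ← sq]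
    apply div_le_div_of_nonneg_right _ (by positivity)
    have h4 : φ 0 (fun _ => y) ^ 2 ≤ 1 := by
      rw [← sq_abs]
      exact pow_le_one₀ (abs_nonneg _) (hφ1 _ _)
    calc φ 0 (fun _ => y) ^ 2 * s ^ 2 ≤ 1 * s ^ 2 := mul_le_mul_of_nonneg_right h4 (sq_nonneg _)
      _ = s ^ 2 := one_mul _
  | succ p ih =>
    obtain ⟨y⟩ := ‹Nonempty Y›
    set N : ℝ := (Fintype.card Y : ℝ) with hNdef
    -- the inner average
    set g : (Fin (p + 1) → Y) → ℝ := fun x' => ∑ t : Y, F (Fin.cons t x' : Fin (p + 2) → Y) *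
      ∏ j : Fin (p + 1), φ j.succ (Fin.cons t x' : Fin (p + 2) → Y) with hg
    set ψ : (Fin (p + 1) → Y) → ℝ := fun x' => φ 0 (Fin.cons y x' : Fin (p + 2) → Y) with hψ
    have hψ0 : ∀ t x', φ 0 (Fin.cons t x' : Fin (p + 2) → Y) = ψ x' := by
      intro t x'
      refine hφ 0 _ _ fun i hi => ?_
      obtain ⟨j, rfl⟩ := Fin.exists_succ_eq_of_ne_zero hi
      simp
    have h1 : ∑ x, F x * ∏ j, φ j x = ∑ x', ψ x' * g x' := by
      rw [sum_finCons (p + 1)]
      refine sum_congr rfl fun x' _ => ?_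
      rw [hg, mul_sum]
      refine sum_congr rfl fun t _ => ?_
      rw [Fin.prod_univ_succ, hψ0]
      ring
    -- Cauchy Schwarz
    set A : Y → Y → ℝ := fun t t' =>
      (∑ x' : Fin (p + 1) → Y, (F (Fin.cons t x' : Fin (p + 2) → Y) *
        F (Fin.cons t' x' : Fin (p + 2) → Y)) *
        ∏ j : Fin (p + 1), (φ j.succ (Fin.cons t x' : Fin (p + 2) → Y) *
          φ j.succ (Fin.cons t' x' : Fin (p + 2) → Y))) / N ^ (p + 1) with hA
    have hgsq : ∑ x', g x' ^ 2 = N ^ (p + 1) * ∑ t, ∑ t', A t t' := by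
      simp only [hA, ← sum_div]
      rw [mul_div_cancel₀ _ (by positivity)]
      have h2 : ∀ x', g x' ^ 2 = ∑ t : Y, ∑ t' : Y, (F (Fin.cons t x' : Fin (p + 2) → Y) *
        F (Fin.cons t' x' : Fin (p + 2) → Y)) *
        ∏ j : Fin (p + 1), (φ j.succ (Fin.cons t x' : Fin (p + 2) → Y) *
          φ j.succ (Fin.cons t' x' : Fin (p + 2) → Y)) := by
        intro x'
        rw [sq, hg, sum_mul_sum]
        refine sum_congr rfl fun t _ => sum_congr rfl fun t' _ => ?_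
        rw [prod_mul_distrib]
        ring
      simp only [h2]
      rw [sum_comm]
      refine sum_congr rfl fun t _ => ?_
      rw [sum_comm]
    have hcs : (∑ x', ψ x' * g x') ^ 2 ≤ N ^ (p + 1) * ∑ x', g x' ^ 2 := by
      refine (sum_mul_sq_le_sq_mul_sq univ ψ g).trans ?_
      apply mul_le_mul_of_nonneg_right _ (sum_nonneg fun x' _ => sq_nonneg _)
      have h2 : ∀ x' ∈ (univ : Finset (Fin (p + 1) → Y)), ψ x' ^ 2 ≤ 1 := by
        intro x' _
        rw [← sq_abs]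
        exact pow_le_one₀ (abs_nonneg _) (hφ1 _ _)
      refine (sum_le_sum h2).trans ?_
      simp [hNdef]
    have hstep : |(∑ x, F x * ∏ j, φ j x) / N ^ (p + 1 + 1)| ^ 2 ≤
        (∑ t, ∑ t', |A t t'|) / N ^ 2 := by
      rw [h1, sq_abs, div_pow, div_le_div_iff₀ (by positivity) (by positivity)]
      have h3 : ∑ t, ∑ t', A t t' ≤ ∑ t, ∑ t', |A t t'| :=
        sum_le_sum fun t _ => sum_le_sum fun t' _ => le_abs_self _
      rw [hgsq] at hcs
      calc (∑ x', ψ x' * g x') ^ 2 * N ^ 2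
          ≤ (N ^ (p + 1) * (N ^ (p + 1) * ∑ t, ∑ t', A t t')) * N ^ 2 :=
            mul_le_mul_of_nonneg_right hcs (by positivity)
        _ = (∑ t, ∑ t', A t t') * (N ^ (p + 1 + 1)) ^ 2 := by ring
        _ ≤ (∑ t, ∑ t', |A t t'|) * (N ^ (p + 1 + 1)) ^ 2 :=
            mul_le_mul_of_nonneg_right h3 (by positivity)
    have hIH : ∀ t t', |A t t'| ^ (2 ^ (p + 1)) ≤ box (p + 1) (fun x' =>
        F (Fin.cons t x' : Fin (p + 2) → Y) * F (Fin.cons t' x' : Fin (p + 2) → Y)) := by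
      intro t t'
      refine ih _ (fun j x' => φ j.succ (Fin.cons t x' : Fin (p + 2) → Y) *
          φ j.succ (Fin.cons t' x' : Fin (p + 2) → Y)) ?_ ?_
      · intro j x
        rw [abs_mul]
        exact mul_le_one₀ (hφ1 _ _) (abs_nonneg _) (hφ1 _ _)
      · intro j x x' hx
        have h5 : ∀ s : Y, φ j.succ (Fin.cons s x : Fin (p + 2) → Y) =
            φ j.succ (Fin.cons s x' : Fin (p + 2) → Y) := by
          intro s
          refine hφ _ _ _ fun i hi => ?_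
          rcases Fin.eq_zero_or_eq_succ i with rfl | ⟨i', rfl⟩
          · simp
          · simp only [Fin.cons_succ]
            exact hx i' fun h => hi (by rw [h])
        simp only [h5]
    have h2 : (2 : ℕ) ^ (p + 1 + 1) = 2 * 2 ^ (p + 1) := by ring
    rw [h2, pow_mul]
    calc (|(∑ x, F x * ∏ j, φ j x) / N ^ (p + 1 + 1)| ^ 2) ^ 2 ^ (p + 1)
        ≤ ((∑ t, ∑ t', |A t t'|) / N ^ 2) ^ 2 ^ (p + 1) := pow_le_pow_left₀ (by positivity) hstep _
      _ ≤ (∑ t, ∑ t', |A t t'| ^ 2 ^ (p + 1)) / N ^ 2 := power_mean A _ (by positivity)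
      _ ≤ _ := by
        simp only [box]
        apply div_le_div_of_nonneg_right _ (by positivity)
        exact sum_le_sum fun t _ => sum_le_sum fun t' _ => hIH t t'

end Pool.Agent.Lib_MP_22d2c8_tw
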