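import Pool.Agent.Lib_MP_22d2c8_tw.Box

/-!
# The hard function has small box norm for a suitable `z`
-/

namespace Pool.Agent.Lib_MP_22d2c8_tw

open Finset

/-- The input of the circuit in which the block variables `x` are placed at the coordinates
`e (j, a)`, the other coordinates are `0`, and the second half is `z`. -/
noncomputable def place {n p m : ℕ} (e : Fin p × Fin m → Fin n) (z : Fin n → Bool)
    (x : Fin p → Fin m → Bool) : Fin n ⊕ Fin n → Bool
  | Sum.inl i => Function.extend e (fun ja => x ja.1 ja.2) (fun _ => false) i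
  | Sum.inr k => z k

/-! ### Iterated differences -/

section Diff

variable {K : Type} [Field K]

/-- The iterated difference of `G` at `0` along the list of pairs. -/
def fDiff : List (K × K) → (K → K) → K
  | [], G => G 0
  | p :: l, G => fDiff l (fun a => G (a + p.1) + G (a + p.2))

theorem fDiff_add (l : List (K × K)) : ∀ G H : K → K,
    fDiff l (fun a => G a + H a) = fDiff l G + fDiff l H := by
  induction l with
  | nil => intro G H; rfl
  | cons p l ih =>
    intro G H
    simp only [fDiff]
    rw [← ih]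
    congr 1
    funext a
    ring

/-- The product of the `a + ` (subset sums of `h`). -/
def fProd : List (K × K) → K → K
  | [], a => a
  | p :: l, a => fProd l a * fProd l (a + (p.1 + p.2))

/-- The numerator. -/
def fNum : List (K × K) → K
  | [] => 1
  | p :: l => fNum l * fProd l (p.1 + p.2)

theorem fProd_add [CharP K 2] (l : List (K × K)) : ∀ a a' : K,
    fProd l (a + a') = fProd l a + fProd l a' := by
  induction l with
  | nil => intro a a'; rfl
  | cons p l ih =>
    intro a a'
    simp only [fProd]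
    rw [ih (a + a'), ih a a', ih a (p.1 + p.2), ih a' (p.1 + p.2)]
    have h2 : (2 : K) = 0 := CharTwo.two_eq_zero
    linear_combination (fProd l a * fProd l a') * h2

theorem fDiff_inv [CharP K 2] (l : List (K × K)) : ∀ a : K,
    fProd l (a + (l.map Prod.fst).sum) ≠ 0 →
    fDiff l (fun b => (b + a)⁻¹) = fNum l / fProd l (a + (l.map Prod.fst).sum) := by
  induction l with
  | nil =>
    intro a ha
    simp [fDiff, fNum, fProd]
  | cons p l ih =>
    intro a ha
    have h2 : (2 : K) = 0 := CharTwo.two_eq_zero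
    simp only [List.map_cons, List.sum_cons, fProd] at ha ⊢
    obtain ⟨ha1, ha2⟩ := mul_ne_zero_iff.mp ha
    have e1 : a + (p.1 + (l.map Prod.fst).sum) = (p.1 + a) + (l.map Prod.fst).sum := by ring
    have e2 : a + (p.1 + (l.map Prod.fst).sum) + (p.1 + p.2) =
        (p.2 + a) + (l.map Prod.fst).sum := by
      linear_combination p.1 * h2
    simp only [fDiff, fNum]
    rw [fDiff_add]
    have i1 := ih (p.1 + a) (by rw [← e1]; exact ha1)
    have i2 := ih (p.2 + a) (by rw [← e2]; exact ha2)
    have j1 : (fun b : K => (b + p.1 + a)⁻¹) = fun b => (b + (p.1 + a))⁻¹ := by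
      funext b; rw [add_assoc]
    have j2 : (fun b : K => (b + p.2 + a)⁻¹) = fun b => (b + (p.2 + a))⁻¹ := by
      funext b; rw [add_assoc]
    rw [j1, j2, i1, i2, ← e1, ← e2]
    have hs := fProd_add l (a + (p.1 + (l.map Prod.fst).sum)) (p.1 + p.2)
    rw [hs] at ha2 ⊢
    field_simp
    linear_combination (fNum l * fProd l (a + (p.1 + (l.map Prod.fst).sum))) * h2

theorem fProd_zero [CharP K 2] [Algebra (ZMod 2) K] (l : List (K × K)) : ∀ a : K,
    fProd l a = 0 → a ∈ Submodule.span (ZMod 2) {h | ∃ p ∈ l, h = p.1 + p.2} := by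
  induction l with
  | nil =>
    intro a ha
    simp only [fProd] at ha
    rw [ha]
    exact Submodule.zero_mem _
  | cons p l ih =>
    intro a ha
    have hsub : Submodule.span (ZMod 2) {h | ∃ p ∈ l, h = p.1 + p.2} ≤
        Submodule.span (ZMod 2) {h | ∃ q ∈ p :: l, h = q.1 + q.2} := by
      apply Submodule.span_mono
      rintro h ⟨q, hq, rfl⟩
      exact ⟨q, List.mem_cons_of_mem _ hq, rfl⟩
    simp only [fProd, mul_eq_zero] at ha
    rcases ha with ha | ha
    · exact hsub (ih a ha)
    · have h1 := hsub (ih _ ha)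
      have h3 : p.1 + p.2 ∈ Submodule.span (ZMod 2) {h | ∃ q ∈ p :: l, h = q.1 + q.2} :=
        Submodule.subset_span ⟨p, List.mem_cons_self, rfl⟩
      have h4 := Submodule.sub_mem _ h1 h3
      simpa using h4

end Diff

/-! ### The block structure -/

section Blocks

variable {K : Type} [Field K] [CharP K 2] [Algebra (ZMod 2) K] {Y : Type}

/-- The list of pairs attached to two points. -/
def fList {q : ℕ} (ξ : Fin q → Y → K) (x y : Fin q → Y) : List (K × K) :=
  List.ofFn fun j => (ξ j (x j), ξ j (y j))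

/-- The blocks are independent. -/
def Indep {q : ℕ} (ξ : Fin q → Y → K) : Prop :=
  ∀ j : Fin q, ∀ t t' : Y, t ≠ t' → ∃ φ : K →ₗ[ZMod 2] ZMod 2,
    φ (ξ j t + ξ j t') ≠ 0 ∧ ∀ i, i ≠ j → ∀ s, φ (ξ i s) = 0

omit [CharP K 2] in
theorem Indep.tail {q : ℕ} {ξ : Fin (q + 1) → Y → K} (h : Indep ξ) :
    Indep (fun j : Fin q => ξ j.succ) := by
  intro j t t' htt
  obtain ⟨φ, h1, h2⟩ := h j.succ t t' htt
  exact ⟨φ, h1, fun i hi s => h2 i.succ (fun hc => hi (Fin.succ_injective _ hc)) s⟩

omit [Field K] [CharP K 2] [Algebra (ZMod 2) K] in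
theorem fList_succ {q : ℕ} (ξ : Fin (q + 1) → Y → K) (x y : Fin (q + 1) → Y) :
    fList ξ x y = (ξ 0 (x 0), ξ 0 (y 0)) ::
      fList (fun j : Fin q => ξ j.succ) (fun j => x j.succ) (fun j => y j.succ) := by
  simp [fList, List.ofFn_succ]

omit [CharP K 2] in
/-- A functional vanishing on the later blocks vanishes on the span. -/
theorem span_vanish {q : ℕ} (ξ : Fin q → Y → K) (x y : Fin q → Y) (φ : K →ₗ[ZMod 2] ZMod 2)
    (h : ∀ i s, φ (ξ i s) = 0) (a : K)
    (ha : a ∈ Submodule.span (ZMod 2) {h | ∃ p ∈ fList ξ x y, h = p.1 + p.2}) : φ a = 0 := by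
  have : Submodule.span (ZMod 2) {h | ∃ p ∈ fList ξ x y, h = p.1 + p.2} ≤ LinearMap.ker φ := by
    rw [Submodule.span_le]
    rintro g ⟨p, hp, rfl⟩
    simp only [fList, List.mem_ofFn] at hp
    obtain ⟨i, rfl⟩ := hp
    simp [h]
  exact this ha

theorem fNum_ne {q : ℕ} : ∀ (ξ : Fin q → Y → K) (x y : Fin q → Y), Indep ξ →
    (∀ j, x j ≠ y j) → fNum (fList ξ x y) ≠ 0 := by
  induction q with
  | zero =>
    intro ξ x y _ _
    simp [fList, fNum]
  | succ q ih =>
    intro ξ x y hξ hxy
    rw [fList_succ]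
    simp only [fNum]
    refine mul_ne_zero (ih _ _ _ hξ.tail fun j => hxy j.succ) ?_
    intro h0
    obtain ⟨φ, h1, h2⟩ := hξ 0 (x 0) (y 0) (hxy 0)
    exact h1 (span_vanish _ _ _ φ (fun i s => h2 i.succ (Fin.succ_ne_zero i) s) _
      (fProd_zero _ _ h0))

omit [CharP K 2] [Algebra (ZMod 2) K] in
theorem fList_sum {q : ℕ} (ξ : Fin q → Y → K) (x y : Fin q → Y) :
    ((fList ξ x y).map Prod.fst).sum = ∑ j, ξ j (x j) := by
  simp [fList, List.map_ofFn, List.sum_ofFn, Function.comp_def]

theorem fDiff_ne {q : ℕ} (ξ : Fin (q + 1) → Y → K) (x y : Fin (q + 1) → Y) (hξ : Indep ξ)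
    (o : Y) (ho : ξ 0 o = 0) (hxy : ∀ j, x j ≠ y j) (hx : x 0 ≠ o) (hy : y 0 ≠ o) :
    fDiff (fList ξ x y) (fun b => b⁻¹) ≠ 0 := by
  have hn := fNum_ne ξ x y hξ hxy
  have hp : fProd (fList ξ x y) (0 + ((fList ξ x y).map Prod.fst).sum) ≠ 0 := by
    rw [zero_add, fList_sum, fList_succ]
    simp only [fProd]
    refine mul_ne_zero ?_ ?_
    · intro h0
      obtain ⟨φ, h1, h2⟩ := hξ 0 (x 0) o hx
      have h3 := span_vanish _ _ _ φ (fun i s => h2 i.succ (Fin.succ_ne_zero i) s) _
        (fProd_zero _ _ h0)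
      apply h1
      rw [ho, add_zero]
      rw [Fin.sum_univ_succ, map_add, map_sum] at h3
      simpa [h2] using h3
    · intro h0
      obtain ⟨φ, h1, h2⟩ := hξ 0 (y 0) o hy
      have h3 := span_vanish _ _ _ φ (fun i s => h2 i.succ (Fin.succ_ne_zero i) s) _
        (fProd_zero _ _ h0)
      apply h1
      rw [ho, add_zero]
      rw [Fin.sum_univ_succ, map_add, map_add, map_sum, map_add] at h3
      have h4 : ∀ u v : ZMod 2, u + 0 + (u + v) = v := by decide
      have h5 : ∑ i : Fin q, φ (ξ i.succ (x i.succ)) = 0 :=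
        Finset.sum_eq_zero fun i _ => h2 i.succ (Fin.succ_ne_zero i) _
      rw [h5, h4] at h3
      exact h3
  have := fDiff_inv (fList ξ x y) 0 hp
  simp only [add_zero] at this
  rw [this]
  exact div_ne_zero hn hp

end Blocks

/-! ### The recursion of the box norm -/

theorem sum_cons {Y : Type} [Fintype Y] {q : ℕ} (f : (Fin (q + 1) → Y) → ℝ) :
    ∑ x, f x = ∑ t : Y, ∑ x : Fin q → Y, f (Fin.cons t x : Fin (q + 1) → Y) := by
  rw [← Fintype.sum_prod_type']
  exact (Fintype.sum_equiv (Fin.consEquiv fun _ => Y) _ _ fun _ => rfl).symm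

theorem box_eq {K Y : Type} [Field K] [Fintype Y] (χ : K → ℝ)
    (hχ : ∀ a a', χ (a + a') = χ a * χ a') : ∀ (q : ℕ) (ξ : Fin q → Y → K) (G : K → K),
    box q (fun x : Fin q → Y => χ (G (∑ j, ξ j (x j)))) =
      (∑ x : Fin q → Y, ∑ y : Fin q → Y, χ (fDiff (fList ξ x y) G)) /
        (Fintype.card Y : ℝ) ^ (2 * q) := by
  intro q
  induction q with
  | zero =>
    intro ξ G
    simp [box, fDiff, fList]
  | succ q ih =>
    intro ξ G
    have key : ∀ t t' : Y, box q (fun x : Fin q → Y =>
        χ (G (∑ j, ξ j ((Fin.cons t x : Fin (q + 1) → Y) j))) *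
        χ (G (∑ j, ξ j ((Fin.cons t' x : Fin (q + 1) → Y) j)))) =
        (∑ x : Fin q → Y, ∑ y : Fin q → Y, χ (fDiff (fList ξ (Fin.cons t x) (Fin.cons t' y)) G)) /
        (Fintype.card Y : ℝ) ^ (2 * q) := by
      intro t t'
      have := ih (fun j => ξ j.succ) (fun a => G (a + ξ 0 t) + G (a + ξ 0 t'))
      simp only [fList_succ, fDiff, Fin.cons_zero, Fin.cons_succ, Fin.sum_univ_succ]
      rw [← this]
      congr 1
      funext x
      rw [← hχ]
      congr 2
      · congr 1; ring
      · congr 1; ring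
    show (∑ t : Y, ∑ t' : Y, box q _) / (Fintype.card Y : ℝ) ^ 2 = _
    simp only [key]
    rw [sum_cons]
    have h1 : ∀ t : Y, ∑ t' : Y, (∑ x : Fin q → Y, ∑ y : Fin q → Y,
        χ (fDiff (fList ξ (Fin.cons t x) (Fin.cons t' y)) G)) / (Fintype.card Y : ℝ) ^ (2 * q) =
        (∑ x : Fin q → Y, ∑ y : Fin (q + 1) → Y, χ (fDiff (fList ξ (Fin.cons t x) y) G)) /
        (Fintype.card Y : ℝ) ^ (2 * q) := by
      intro t
      rw [← Finset.sum_div, Finset.sum_comm]
      congr 1
      refine Finset.sum_congr rfl fun x _ => ?_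
      rw [sum_cons]
    rw [Finset.sum_congr rfl fun t _ => h1 t, ← Finset.sum_div, div_div]
    congr 1
    rw [← pow_add]
    congr 1

/-! ### Characters -/

section Char

variable {n : ℕ} {K : Type} [Field K] [Algebra (ZMod 2) K]

/-- The character attached to `z`. -/
noncomputable def chr (b : Module.Basis (Fin n) (ZMod 2) K) (z : Fin n → Bool) (a : K) : ℝ :=
  sgn (decide (∑ k, bit (z k) * b.repr a k = 1))

theorem sgn_add : ∀ s s' : ZMod 2,
    sgn (decide (s + s' = 1)) = sgn (decide (s = 1)) * sgn (decide (s' = 1)) := by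
  have key : ∀ s s' : ZMod 2,
      decide (s + s' = 1) = xor (decide (s = 1)) (decide (s' = 1)) := by decide
  intro s s'
  rw [key]
  cases decide (s = 1) <;> cases decide (s' = 1) <;> simp [sgn]

theorem sgn_sum {ι : Type} (s : Finset ι) (f : ι → ZMod 2) :
    sgn (decide (∑ i ∈ s, f i = 1)) = ∏ i ∈ s, sgn (decide (f i = 1)) := by
  classical
  induction s using Finset.induction_on with
  | empty => simp [sgn]
  | insert i s hi ih => rw [Finset.sum_insert hi, Finset.prod_insert hi, sgn_add, ih]

theorem chr_add (b : Module.Basis (Fin n) (ZMod 2) K) (z : Fin n → Bool) (a a' : K) :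
    chr b z (a + a') = chr b z a * chr b z a' := by
  unfold chr
  rw [← sgn_add]
  congr 3
  rw [← Finset.sum_add_distrib]
  refine Finset.sum_congr rfl fun k _ => ?_
  rw [map_add]
  simp [mul_add]

open scoped Classical in
theorem chr_sum (b : Module.Basis (Fin n) (ZMod 2) K) (a : K) :
    ∑ z : Fin n → Bool, chr b z a = if a = 0 then (2 : ℝ) ^ n else 0 := by
  have h1 : ∀ z : Fin n → Bool, chr b z a =
      ∏ k, sgn (decide (bit (z k) * b.repr a k = 1)) := fun z => sgn_sum _ _
  rw [Finset.sum_congr rfl fun z _ => h1 z]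
  have h2 := Finset.prod_univ_sum (fun _ : Fin n => (Finset.univ : Finset Bool))
    (fun k c => sgn (decide (bit c * b.repr a k = 1)))
  rw [Fintype.piFinset_univ] at h2
  rw [← h2]
  split_ifs with h
  · subst h
    simp [sgn]
  · have h3 : ∃ k, b.repr a k ≠ 0 := by
      by_contra hc
      push Not at hc
      apply h
      have : b.repr a = 0 := by
        ext k; simpa using hc k
      simpa using this
    obtain ⟨k, hk⟩ := h3
    apply Finset.prod_eq_zero (Finset.mem_univ k)
    have hk1 : b.repr a k = 1 := by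
      revert hk
      generalize b.repr a k = u
      revert u
      decide
    simp [hk1, bit, sgn]

end Char

/-! ### The final count -/

theorem card_fix {Y : Type} [Fintype Y] [DecidableEq Y] (q : ℕ) (j : Fin (q + 1)) (c : Y) :
    (univ.filter fun y : Fin (q + 1) → Y => y j = c).card = Fintype.card Y ^ q := by
  have := Fintype.card_filter_piFinset_const_eq_of_mem (Finset.univ : Finset Y) j
    (Finset.mem_univ c)
  rw [Fintype.piFinset_univ] at this
  rw [this]
  simp

theorem exists_small_box {n : ℕ} {K : Type} [Field K] [Algebra (ZMod 2) K]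
    (b : Module.Basis (Fin n) (ZMod 2) K) (p m : ℕ) (e : Fin (p + 1) × Fin m → Fin n)
    (he : Function.Injective e) :
    ∃ z : Fin n → Bool,
      box (p + 1) (fun x : Fin (p + 1) → (Fin m → Bool) => sgn (invForm b (place e z x))) ≤
        ((p : ℝ) + 3) / 2 ^ m := by
  classical
  have : CharP K 2 := charP_of_injective_algebraMap (algebraMap (ZMod 2) K).injective 2
  set ξ : Fin (p + 1) → (Fin m → Bool) → K := fun j t => ∑ a, bit (t a) • b (e (j, a)) with hξdef
  have hF : ∀ z : Fin n → Bool,
      (fun x : Fin (p + 1) → (Fin m → Bool) => sgn (invForm b (place e z x))) =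
      fun x => chr b z ((fun c : K => c⁻¹) (∑ j, ξ j (x j))) := by
    intro z
    funext x
    have h1 : ∑ i, bit (place e z x (Sum.inl i)) • b i = ∑ j, ξ j (x j) := by
      simp only [hξdef]
      rw [← Fintype.sum_prod_type' (f := fun (j : Fin (p + 1)) (a : Fin m) =>
        bit (x j a) • b (e (j, a)))]
      symm
      refine Fintype.sum_of_injective e he _ _ ?_ ?_
      · intro i hi
        have : place e z x (Sum.inl i) = false := by
          show Function.extend e (fun ja => x ja.1 ja.2) (fun _ => false) i = false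
          exact Function.extend_apply' _ _ _ (fun ⟨ja, hja⟩ => hi ⟨ja, hja⟩)
        rw [this]
        simp [bit]
      · intro ja
        have : place e z x (Sum.inl (e ja)) = x ja.1 ja.2 := by
          show Function.extend e (fun ja => x ja.1 ja.2) (fun _ => false) (e ja) = x ja.1 ja.2
          exact he.extend_apply _ _ _
        rw [this]
    unfold invForm chr
    rw [h1]
    rfl
  have hcoord : ∀ (j : Fin (p + 1)) (a : Fin m) (i : Fin (p + 1)) (s : Fin m → Bool),
      b.coord (e (j, a)) (ξ i s) = if i = j then bit (s a) else 0 := by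
    intro j a i s
    simp only [hξdef, map_sum, map_smul, Module.Basis.coord_apply, Module.Basis.repr_self]
    split_ifs with hij
    · subst hij
      rw [Finset.sum_eq_single a]
      · simp
      · intro a' _ ha'
        rw [Finsupp.single_eq_of_ne]
        · simp
        · intro hc
          have := he hc
          simp only [Prod.mk.injEq, true_and] at this
          first | exact ha' this | exact ha' this.symm
      · intro h; exact absurd (Finset.mem_univ a) h
    · refine Finset.sum_eq_zero fun a' _ => ?_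
      rw [Finsupp.single_eq_of_ne]
      · simp
      · intro hc
        have := he hc
        simp only [Prod.mk.injEq] at this
        first | exact hij this.1 | exact hij this.1.symm
  have hbit : ∀ u v : Bool, u ≠ v → bit u + bit v ≠ 0 := by decide
  have hInd : Indep ξ := by
    intro j t t' htt
    obtain ⟨a, ha⟩ := Function.ne_iff.mp htt
    refine ⟨b.coord (e (j, a)), ?_, ?_⟩
    · rw [map_add, hcoord, hcoord]
      simpa using hbit _ _ ha
    · intro i hi s
      rw [hcoord]
      simp [hi]
  have h0 : ξ 0 (fun _ => false) = 0 := by simp [hξdef, bit]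
  -- the number of bad pairs
  have hY : Fintype.card (Fin m → Bool) = 2 ^ m := by simp
  set bad : Finset ((Fin (p + 1) → (Fin m → Bool)) × (Fin (p + 1) → (Fin m → Bool))) :=
    univ.filter fun xy => fDiff (fList ξ xy.1 xy.2) (fun c : K => c⁻¹) = 0 with hbad
  have hbadsub : bad ⊆
      ((univ : Finset (Fin (p + 1))).biUnion fun j => univ.filter fun xy => xy.1 j = xy.2 j) ∪
      ((univ.filter fun xy => xy.1 0 = fun _ => false) ∪
        (univ.filter fun xy => xy.2 0 = fun _ => false)) := by
    rintro ⟨x, y⟩ hxy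
    simp only [hbad, Finset.mem_filter, Finset.mem_univ, true_and] at hxy
    by_contra hc
    simp only [Finset.mem_union, Finset.mem_biUnion, Finset.mem_filter, Finset.mem_univ,
      true_and, not_or, not_exists] at hc
    exact fDiff_ne ξ x y hInd _ h0 hc.1 hc.2.1 hc.2.2 hxy
  have c1 : ∀ j : Fin (p + 1),
      ((univ : Finset ((Fin (p + 1) → (Fin m → Bool)) × (Fin (p + 1) → (Fin m → Bool)))).filter
        fun xy => xy.1 j = xy.2 j).card ≤
      Fintype.card (Fin m → Bool) ^ (p + 1) * Fintype.card (Fin m → Bool) ^ p := by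
    intro j
    have hsub : ((univ : Finset ((Fin (p + 1) → (Fin m → Bool)) × (Fin (p + 1) → (Fin m → Bool)))).filter
        fun xy => xy.1 j = xy.2 j) ⊆ (univ : Finset (Fin (p + 1) → (Fin m → Bool))).biUnion
          fun x => (univ.filter fun y : Fin (p + 1) → (Fin m → Bool) => y j = x j).image (fun y => (x, y)) := by
      rintro ⟨x, y⟩ h
      simp only [Finset.mem_filter, Finset.mem_univ, true_and] at h
      simp only [Finset.mem_biUnion, Finset.mem_image, Finset.mem_filter, Finset.mem_univ,
        true_and]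
      exact ⟨x, y, h.symm, rfl⟩
    refine (Finset.card_le_card hsub).trans (Finset.card_biUnion_le.trans ?_)
    have : ∀ x ∈ (univ : Finset (Fin (p + 1) → (Fin m → Bool))),
        ((univ.filter fun y : Fin (p + 1) → (Fin m → Bool) => y j = x j).image (fun y => (x, y))).card ≤
          Fintype.card (Fin m → Bool) ^ p := by
      intro x _
      exact Finset.card_image_le.trans (card_fix p j (x j)).le
    refine (Finset.sum_le_sum this).trans ?_
    simp
  have c2 : ((univ : Finset ((Fin (p + 1) → (Fin m → Bool)) × (Fin (p + 1) → (Fin m → Bool)))).filter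
        fun xy => xy.1 0 = fun _ => false).card ≤
      Fintype.card (Fin m → Bool) ^ (p + 1) * Fintype.card (Fin m → Bool) ^ p := by
    have hsub : ((univ : Finset ((Fin (p + 1) → (Fin m → Bool)) × (Fin (p + 1) → (Fin m → Bool)))).filter
        fun xy => xy.1 0 = fun _ => false) ⊆
        (univ.filter fun y : Fin (p + 1) → (Fin m → Bool) => y 0 = fun _ => false) ×ˢ univ := by
      rintro ⟨x, y⟩ h
      simp only [Finset.mem_filter, Finset.mem_univ, true_and] at h
      simp [h]
    refine (Finset.card_le_card hsub).trans ?_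
    rw [Finset.card_product, card_fix]
    simp [mul_comm]
  have c3 : ((univ : Finset ((Fin (p + 1) → (Fin m → Bool)) × (Fin (p + 1) → (Fin m → Bool)))).filter
        fun xy => xy.2 0 = fun _ => false).card ≤
      Fintype.card (Fin m → Bool) ^ (p + 1) * Fintype.card (Fin m → Bool) ^ p := by
    have hsub : ((univ : Finset ((Fin (p + 1) → (Fin m → Bool)) × (Fin (p + 1) → (Fin m → Bool)))).filter
        fun xy => xy.2 0 = fun _ => false) ⊆
        univ ×ˢ (univ.filter fun y : Fin (p + 1) → (Fin m → Bool) => y 0 = fun _ => false) := by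
      rintro ⟨x, y⟩ h
      simp only [Finset.mem_filter, Finset.mem_univ, true_and] at h
      simp [h]
    refine (Finset.card_le_card hsub).trans ?_
    rw [Finset.card_product, card_fix]
    simp
  have hcard : bad.card ≤ (p + 3) * (Fintype.card (Fin m → Bool) ^ (p + 1) * Fintype.card (Fin m → Bool) ^ p) := by
    refine (Finset.card_le_card hbadsub).trans ?_
    refine (Finset.card_union_le _ _).trans ?_
    have hA : ((univ : Finset (Fin (p + 1))).biUnion fun j =>
        (univ : Finset ((Fin (p + 1) → (Fin m → Bool)) × (Fin (p + 1) → (Fin m → Bool)))).filter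
          fun xy => xy.1 j = xy.2 j).card ≤
        (p + 1) * (Fintype.card (Fin m → Bool) ^ (p + 1) * Fintype.card (Fin m → Bool) ^ p) := by
      refine Finset.card_biUnion_le.trans ((Finset.sum_le_sum fun j _ => c1 j).trans ?_)
      simp
    have hB := (Finset.card_union_le
      ((univ : Finset ((Fin (p + 1) → (Fin m → Bool)) × (Fin (p + 1) → (Fin m → Bool)))).filter
        fun xy => xy.1 0 = fun _ => false)
      ((univ : Finset ((Fin (p + 1) → (Fin m → Bool)) × (Fin (p + 1) → (Fin m → Bool)))).filter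
        fun xy => xy.2 0 = fun _ => false)).trans (Nat.add_le_add c2 c3)
    refine (Nat.add_le_add hA hB).trans (le_of_eq ?_)
    ring
  -- averaging
  by_contra hcon
  push Not at hcon
  have hsum : ∑ z : Fin n → Bool, box (p + 1)
      (fun x : Fin (p + 1) → (Fin m → Bool) => sgn (invForm b (place e z x))) =
      (2 : ℝ) ^ n * bad.card / (Fintype.card (Fin m → Bool) : ℝ) ^ (2 * (p + 1)) := by
    have : ∀ z : Fin n → Bool, box (p + 1)
      (fun x : Fin (p + 1) → (Fin m → Bool) => sgn (invForm b (place e z x))) =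
      (∑ x : Fin (p + 1) → (Fin m → Bool), ∑ y : Fin (p + 1) → (Fin m → Bool),
        chr b z (fDiff (fList ξ x y) (fun c : K => c⁻¹))) /
        (Fintype.card (Fin m → Bool) : ℝ) ^ (2 * (p + 1)) := by
      intro z
      rw [hF z]
      exact box_eq (chr b z) (chr_add b z) (p + 1) ξ (fun c : K => c⁻¹)
    rw [Finset.sum_congr rfl fun z _ => this z, ← Finset.sum_div]
    congr 1
    rw [Finset.sum_comm]
    have h2 : ∀ x : Fin (p + 1) → (Fin m → Bool), ∑ z : Fin n → Bool, ∑ y : Fin (p + 1) → (Fin m → Bool),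
        chr b z (fDiff (fList ξ x y) (fun c : K => c⁻¹)) =
        ∑ y : Fin (p + 1) → (Fin m → Bool),
          if fDiff (fList ξ x y) (fun c : K => c⁻¹) = 0 then (2 : ℝ) ^ n else 0 := by
      intro x
      rw [Finset.sum_comm]
      exact Finset.sum_congr rfl fun y _ => chr_sum b _
    rw [Finset.sum_congr rfl fun x _ => h2 x]
    rw [← Fintype.sum_prod_type' (f := fun (x y : Fin (p + 1) → (Fin m → Bool)) =>
      if fDiff (fList ξ x y) (fun c : K => c⁻¹) = 0 then (2 : ℝ) ^ n else 0)]
    rw [← Finset.sum_filter, Finset.sum_const, nsmul_eq_mul, mul_comm]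
  have hlt : ∑ z : Fin n → Bool, ((p : ℝ) + 3) / 2 ^ m < ∑ z : Fin n → Bool, box (p + 1)
      (fun x : Fin (p + 1) → (Fin m → Bool) => sgn (invForm b (place e z x))) :=
    Finset.sum_lt_sum_of_nonempty Finset.univ_nonempty fun z _ => hcon z
  rw [hsum] at hlt
  have h5 : ∑ z : Fin n → Bool, ((p : ℝ) + 3) / 2 ^ m = 2 ^ n * (((p : ℝ) + 3) / 2 ^ m) := by
    simp
  rw [h5, mul_div_assoc] at hlt
  have h6 : ((p : ℝ) + 3) / 2 ^ m < bad.card / (Fintype.card (Fin m → Bool) : ℝ) ^ (2 * (p + 1)) :=
    lt_of_mul_lt_mul_left hlt (by positivity)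
  have h7 : (bad.card : ℝ) ≤ ((p : ℝ) + 3) *
      ((Fintype.card (Fin m → Bool) : ℝ) ^ (p + 1) * (Fintype.card (Fin m → Bool) : ℝ) ^ p) := by
    exact_mod_cast hcard
  have h8 : (bad.card : ℝ) / (Fintype.card (Fin m → Bool) : ℝ) ^ (2 * (p + 1)) ≤ ((p : ℝ) + 3) / 2 ^ m := by
    rw [hY] at h7 ⊢
    push_cast at h7 ⊢
    rw [div_le_div_iff₀ (by positivity) (by positivity)]
    calc (bad.card : ℝ) * 2 ^ m ≤ (((p : ℝ) + 3) * (((2 : ℝ) ^ m) ^ (p + 1) * ((2 : ℝ) ^ m) ^ p)) *
          2 ^ m := by
          exact mul_le_mul_of_nonneg_right h7 (by positivity)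
      _ = ((p : ℝ) + 3) * ((2 : ℝ) ^ m) ^ (2 * (p + 1)) := by ring
  exact absurd h6 (not_lt.mpr h8)

end Pool.Agent.Lib_MP_22d2c8_tw
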