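import Pool.Agent.Lib_MP_22d2c8_tw.Sim
import Pool.Agent.Lib_MP_22d2c8_tw.FragW
import Pool.Agent.Lib_MP_22d2c8_tw.Colour
import Pool.Agent.Lib_MP_22d2c8_tw.Field

namespace Pool.Agent.Lib_MP_22d2c8_tw

open Finset

/-- The gate `g` reads the variable `v`. -/
def Circuit.Reads {V : Type} (C : Circuit V) (g : Fin C.size) (v : V) : Prop :=
  C.src1 g = Sum.inl v ∨ C.src2 g = Sum.inl v

/-- The number of input variables read by `g`, with multiplicity. -/
def Circuit.wt {V : Type} (C : Circuit V) (g : Fin C.size) : ℕ :=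
  (if (C.src1 g).isLeft then 1 else 0) + (if (C.src2 g).isLeft then 1 else 0)

theorem sum_wt {V : Type} (C : Circuit V) : ∑ g, C.wt g = C.reads := by
  unfold Circuit.wt Circuit.reads
  rw [sum_add_distrib, card_filter, card_filter]

theorem wt_le_two {V : Type} (C : Circuit V) (g : Fin C.size) : C.wt g ≤ 2 := by
  unfold Circuit.wt
  split_ifs <;> omega

theorem card_reads_left_le {n : ℕ} (C : Circuit (Fin n ⊕ Fin n)) (g : Fin C.size)
    [DecidablePred fun i : Fin n => C.Reads g (Sum.inl i)] :
    (univ.filter fun i : Fin n => C.Reads g (Sum.inl i)).card ≤ C.wt g := by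
  classical
  have hsub : (univ.filter fun i : Fin n => C.Reads g (Sum.inl i)) ⊆
      (univ.filter fun i : Fin n => C.src1 g = Sum.inl (Sum.inl i)) ∪
        (univ.filter fun i : Fin n => C.src2 g = Sum.inl (Sum.inl i)) := by
    intro i hi
    rw [mem_filter] at hi
    rw [mem_union, mem_filter, mem_filter]
    rcases hi.2 with h | h
    · exact Or.inl ⟨mem_univ _, h⟩
    · exact Or.inr ⟨mem_univ _, h⟩
  refine (card_le_card hsub).trans ((card_union_le _ _).trans ?_)
  have key : ∀ s : (Fin n ⊕ Fin n) ⊕ Fin C.size,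
      (univ.filter fun i : Fin n => s = Sum.inl (Sum.inl i)).card ≤
        if s.isLeft then 1 else 0 := by
    intro s
    cases s with
    | inr h => simp
    | inl v =>
      simp only [Sum.isLeft_inl, if_true]
      rw [card_le_one]
      intro a ha b hb
      rw [mem_filter] at ha hb
      have := ha.2.symm.trans hb.2
      exact Sum.inl.inj (Sum.inl.inj this)
  unfold Circuit.wt
  exact Nat.add_le_add (key _) (key _)

/-- The fragments reading the variable `i`. -/
noncomputable def frags {n : ℕ} (C : Circuit (Fin n ⊕ Fin n)) (S : Finset (Fin C.size))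
    (comp : Fin C.size → Fin C.size) (i : Fin n) : Finset (Fin C.size) := by
  classical
  exact (univ.filter fun g => g ∉ S ∧ C.Reads g (Sum.inl i)).image comp

theorem sum_frags_le {n : ℕ} (C : Circuit (Fin n ⊕ Fin n)) (S : Finset (Fin C.size))
    (comp : Fin C.size → Fin C.size) :
    ∑ i, (frags C S comp i).card ≤ C.reads := by
  classical
  calc ∑ i, (frags C S comp i).card
      ≤ ∑ i : Fin n, (univ.filter fun g => g ∉ S ∧ C.Reads g (Sum.inl i)).card := by
        apply sum_le_sum
        intro i _
        unfold frags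
        exact card_image_le
    _ ≤ ∑ i : Fin n, ∑ g : Fin C.size, if C.Reads g (Sum.inl i) then 1 else 0 := by
        apply sum_le_sum
        intro i _
        rw [card_filter]
        apply sum_le_sum
        intro g _
        split_ifs with h1 h2 h2
        · exact le_refl _
        · exact absurd h1.2 h2
        · exact Nat.zero_le _
        · exact le_refl _
    _ = ∑ g : Fin C.size, ∑ i : Fin n, if C.Reads g (Sum.inl i) then 1 else 0 := sum_comm
    _ ≤ ∑ g : Fin C.size, C.wt g := by
        apply sum_le_sum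
        intro g _
        rw [← card_filter]
        exact card_reads_left_le C g
    _ = C.reads := sum_wt C

theorem card_mem_frags_le {n : ℕ} (C : Circuit (Fin n ⊕ Fin n)) (S : Finset (Fin C.size))
    (comp : Fin C.size → Fin C.size) (L : ℕ)
    (hL : ∀ q, ∑ v ∈ univ.filter (fun v => v ∉ S ∧ comp v = q), C.wt v ≤ L) (q : Fin C.size) :
    (univ.filter fun i => q ∈ frags C S comp i).card ≤ L := by
  classical
  have hsub : (univ.filter fun i => q ∈ frags C S comp i) ⊆
      (univ.filter fun v => v ∉ S ∧ comp v = q).biUnion fun g =>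
        univ.filter fun i : Fin n => C.Reads g (Sum.inl i) := by
    intro i hi
    rw [mem_filter] at hi
    have h2 := hi.2
    unfold frags at h2
    rw [mem_image] at h2
    obtain ⟨g, hg, hgq⟩ := h2
    rw [mem_filter] at hg
    rw [mem_biUnion]
    exact ⟨g, by simp [hg.2.1, hgq], by simp [hg.2.2]⟩
  refine (card_le_card hsub).trans (card_biUnion_le.trans ?_)
  refine (sum_le_sum fun g _ => card_reads_left_le C g).trans (hL q)

/-- The variables read by the separator. -/
noncomputable def sepVars {n : ℕ} (C : Circuit (Fin n ⊕ Fin n)) (S : Finset (Fin C.size)) :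
    Finset (Fin n) := by
  classical
  exact S.biUnion fun g => univ.filter fun i : Fin n => C.Reads g (Sum.inl i)

theorem card_sepVars_le {n : ℕ} (C : Circuit (Fin n ⊕ Fin n)) (S : Finset (Fin C.size)) :
    (sepVars C S).card ≤ 2 * S.card := by
  classical
  unfold sepVars
  rw [mul_comm]
  apply card_biUnion_le_card_mul
  intro g _
  exact (card_reads_left_le C g).trans (wt_le_two C g)

theorem sgn_mul_self (a : Bool) : sgn a * sgn a = 1 := by
  cases a <;> simp [sgn]

theorem abs_sgn (a : Bool) : |sgn a| = 1 := by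
  cases a <;> simp [sgn]

theorem core {n : ℕ} {K : Type} [Field K] [Algebra (ZMod 2) K]
    (b : Module.Basis (Fin n) (ZMod 2) K) (C : Circuit (Fin n ⊕ Fin n))
    (hC : C.Computes (invForm b)) (S : Finset (Fin C.size)) (comp : Fin C.size → Fin C.size)
    (L p m : ℕ) (hp : 1 ≤ p)
    (hcomp : ∀ u v, u ∉ S → v ∉ S → C.graph.Adj u v → comp u = comp v)
    (hL : ∀ q, ∑ v ∈ univ.filter (fun v => v ∉ S ∧ comp v = q), C.wt v ≤ L)
    (hn : 0 < n)
    (μ : ℝ) (hμ0 : 0 ≤ μ)
    (hμ : μ ≤ (n : ℝ) * (2 : ℝ) ^ (-(2 * (C.reads : ℝ) / ((p + 1) * n))))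
    (hbig : 4 * ((p : ℝ) + 1) * L * C.reads < μ ^ 2)
    (hm : ((p : ℝ) + 1) * m + 2 * S.card ≤ μ / 2) :
    (2 : ℝ) ^ m ≤ ((p : ℝ) + 3) * 2 ^ ((3 * S.card + 1) * 2 ^ (p + 1)) := by
  classical
  -- the colouring
  obtain ⟨χ, hχ⟩ := exists_colouring (frags C S comp) (p + 1) (by omega) C.reads L
    (sum_frags_le C S comp) (card_mem_frags_le C S comp L hL) μ hμ0
    (by
      refine hμ.trans ?_
      have h := mean_lower (fun i : Fin n => (frags C S comp i).card) (p + 1) (by omega)
        C.reads (sum_frags_le C S comp) (by simpa using hn)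
      rw [Fintype.card_fin] at h
      refine le_trans (le_of_eq ?_) h
      congr 2
      push_cast
      ring)
    (by
      push_cast
      exact hbig)
  let G : Fin (p + 1) → Finset (Fin n) := fun j =>
    (univ.filter fun i => ∀ q ∈ frags C S comp i, χ q ≠ j) \ sepVars C S
  have hG : ∀ j, (p + 1) * m ≤ (G j).card := by
    intro j
    have h1 := hχ j
    have h2 := le_card_sdiff (sepVars C S) (univ.filter fun i => ∀ q ∈ frags C S comp i, χ q ≠ j)
    have h3 := card_sepVars_le C S
    have h4 : (univ.filter fun i => ∀ q ∈ frags C S comp i, χ q ≠ j).card ≤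
        (G j).card + 2 * S.card := by
      show _ ≤ ((univ.filter fun i => ∀ q ∈ frags C S comp i, χ q ≠ j) \ sepVars C S).card + _
      omega
    have h5 : (((univ.filter fun i => ∀ q ∈ frags C S comp i, χ q ≠ j).card : ℕ) : ℝ) ≤
        (G j).card + 2 * S.card := by exact_mod_cast h4
    have h1' : μ / 2 ≤ (((univ.filter fun i => ∀ q ∈ frags C S comp i, χ q ≠ j).card : ℕ) : ℝ) := by
      convert h1
    have h6 : ((p : ℝ) + 1) * m ≤ (G j).card := by linarith
    exact_mod_cast h6
  obtain ⟨e, he, heG⟩ := exists_disjoint_sub (p + 1) m G hG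
  obtain ⟨z, hz⟩ := exists_small_box b p m e he
  have hfr : ∀ g i, g ∉ S → C.Reads g (Sum.inl i) → comp g ∈ frags C S comp i := by
    intro g i hg hr
    unfold frags
    rw [mem_image]
    exact ⟨g, by simp [hg, hr], rfl⟩
  have hsep : ∀ g i, g ∈ S → C.Reads g (Sum.inl i) → i ∈ sepVars C S := by
    intro g i hg hr
    unfold sepVars
    rw [mem_biUnion]
    exact ⟨g, hg, by simp [hr]⟩
  obtain ⟨A, hA, c, φ, hcard, hc, hφ1, hφ, hsum⟩ := circuit_sum C (p + 1) S
    (fun g => χ (comp g))
    (fun g h hg hh hadj => by rw [hcomp g h hg hh hadj])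
    (fun x : Fin (p + 1) → (Fin m → Bool) => place e z x)
    (by
      intro g v hg hr x x' hxx
      cases v with
      | inr k => rfl
      | inl i =>
        by_cases hi : ∃ ja, e ja = i
        · obtain ⟨ja, rfl⟩ := hi
          have h1 := heG ja
          have h2 : ∀ q ∈ frags C S comp (e ja), χ q ≠ ja.1 := by
            have := (mem_sdiff.1 h1).1
            rw [mem_filter] at this
            exact this.2
          have h3 := h2 _ (hfr g (e ja) hg hr)
          have h4 := hxx ja.1 (fun h => h3 h.symm)
          simp only [place]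
          rw [he.extend_apply, he.extend_apply, h4]
        · simp only [place]
          rw [Function.extend_apply' _ _ _ hi, Function.extend_apply' _ _ _ hi])
    (by
      intro g v hg hr x x'
      cases v with
      | inr k => rfl
      | inl i =>
        have hi : ¬ ∃ ja, e ja = i := by
          rintro ⟨ja, rfl⟩
          exact (mem_sdiff.1 (heG ja)).2 (hsep g _ hg hr)
        simp only [place]
        rw [Function.extend_apply' _ _ _ hi, Function.extend_apply' _ _ _ hi])
    (invForm b) hC
  -- averaging
  set F : (Fin (p + 1) → (Fin m → Bool)) → ℝ := fun x => sgn (invForm b (place e z x)) with hF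
  set N : ℝ := (Fintype.card (Fin m → Bool) : ℝ) ^ (p + 1) with hN
  have hNpos : 0 < N := by positivity
  have hNcard : ((univ : Finset (Fin (p + 1) → (Fin m → Bool))).card : ℝ) = N := by
    rw [hN, card_univ, Fintype.card_fun (α := Fin (p + 1))]
    push_cast
    rw [Fintype.card_fin]
  have hone : (1 : ℝ) = ∑ a, c a * ((∑ x, F x * ∏ j, φ a j x) / N) := by
    have h1 : ∑ x, F x * F x = N := by
      rw [← hNcard]
      rw [Finset.sum_congr rfl (fun x _ => sgn_mul_self _)]
      simp
    have h2 : ∑ x, F x * F x = ∑ a, c a * (∑ x, F x * ∏ j, φ a j x) := by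
      calc ∑ x, F x * F x = ∑ x, F x * ∑ a, c a * ∏ j, φ a j x := by
            apply sum_congr rfl
            intro x _
            congr 1
            exact hsum x
        _ = ∑ x, ∑ a, c a * (F x * ∏ j, φ a j x) := by
            apply sum_congr rfl
            intro x _
            rw [mul_sum]
            apply sum_congr rfl
            intro a _
            ring
        _ = ∑ a, ∑ x, c a * (F x * ∏ j, φ a j x) := sum_comm
        _ = ∑ a, c a * (∑ x, F x * ∏ j, φ a j x) := by
            apply sum_congr rfl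
            intro a _
            rw [mul_sum]
    have h3 : ∑ a, c a * ((∑ x, F x * ∏ j, φ a j x) / N) =
        (∑ a, c a * (∑ x, F x * ∏ j, φ a j x)) / N := by
      rw [sum_div]
      apply sum_congr rfl
      intro a _
      ring
    rw [h3, ← h2, h1, div_self hNpos.ne']
  -- some guess has large correlation
  have hex : ∃ a, 1 / (2 : ℝ) ^ (3 * S.card + 1) ≤ |(∑ x, F x * ∏ j, φ a j x) / N| := by
    by_contra hcon
    push Not at hcon
    have hA' : Nonempty A := by
      by_contra hemp
      rw [not_nonempty_iff] at hemp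
      rw [Fintype.sum_empty] at hone
      norm_num at hone
    have h1 : ∑ a, c a * ((∑ x, F x * ∏ j, φ a j x) / N) <
        ∑ a : A, 1 / (2 : ℝ) ^ (3 * S.card + 1) := by
      apply sum_lt_sum_of_nonempty univ_nonempty
      intro a _
      have h1 := hcon a
      have h2 := hc a
      calc c a * ((∑ x, F x * ∏ j, φ a j x) / N)
          ≤ |c a * ((∑ x, F x * ∏ j, φ a j x) / N)| := le_abs_self _
        _ = |c a| * |(∑ x, F x * ∏ j, φ a j x) / N| := abs_mul _ _
        _ ≤ 1 * |(∑ x, F x * ∏ j, φ a j x) / N| :=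
            mul_le_mul_of_nonneg_right h2 (abs_nonneg _)
        _ < _ := by rw [one_mul]; exact h1
    rw [← hone] at h1
    rw [sum_const, card_univ, nsmul_eq_mul] at h1
    have h2 : (Fintype.card A : ℝ) ≤ 2 ^ (3 * S.card + 1) := by exact_mod_cast hcard
    have h3 : (Fintype.card A : ℝ) * (1 / (2 : ℝ) ^ (3 * S.card + 1)) ≤ 1 := by
      rw [mul_one_div]
      rw [div_le_one (by positivity)]
      exact h2
    linarith
  obtain ⟨a, ha⟩ := hex
  have hbox := corr_le_box p F (φ a) (hφ1 a) (hφ a)
  rw [← hN] at hbox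
  have h1 : (1 / (2 : ℝ) ^ (3 * S.card + 1)) ^ (2 ^ (p + 1)) ≤ ((p : ℝ) + 3) / 2 ^ m := by
    refine le_trans ?_ (hbox.trans hz)
    exact pow_le_pow_left₀ (by positivity) ha _
  rw [div_pow, one_pow, ← pow_mul, div_le_div_iff₀ (by positivity) (by positivity)] at h1
  linarith

end Pool.Agent.Lib_MP_22d2c8_tw
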