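import Mathlib

/-!
# Circuits over the full binary basis, their gate graph, treewidth, and the hard function
-/

namespace Pool.Agent.Lib_MP_22d2c8_tw

open Finset

/-- A Boolean circuit over the full binary basis with input variables `V`. The gates are numbered
`0, ..., size - 1`; gate `g` applies the binary operation `op g` to two sources, each an input
variable or an earlier gate. Reading an input variable is free and may happen any number of times.
The value computed is that of the gate `out`. -/
structure Circuit (V : Type) where
  size : ℕ
  op : Fin size → Bool → Bool → Bool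
  src1 : Fin size → V ⊕ Fin size
  src2 : Fin size → V ⊕ Fin size
  src1_lt : ∀ g h, src1 g = Sum.inr h → h < g
  src2_lt : ∀ g h, src2 g = Sum.inr h → h < g
  out : Fin size

namespace Circuit

variable {V : Type}

/-- The value of a source: the input bit, or the value of the gate. -/
def srcVal (C : Circuit V) (x : V → Bool) (v : Fin C.size → Bool) : V ⊕ Fin C.size → Bool
  | Sum.inl i => x i
  | Sum.inr h => v h

/-- `v` assigns to every gate its value on the input `x`. -/
def IsVal (C : Circuit V) (x : V → Bool) (v : Fin C.size → Bool) : Prop :=
  ∀ g, v g = C.op g (C.srcVal x v (C.src1 g)) (C.srcVal x v (C.src2 g))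

/-- The circuit computes `f`: on every input the (unique) valuation of the gates gives the output
gate the value of `f`. -/
def Computes (C : Circuit V) (f : (V → Bool) → Bool) : Prop :=
  ∀ x, ∃ v, C.IsVal x v ∧ v C.out = f x

/-- The number of times the circuit reads an input variable (the number of wires that leave input
variables). It is at most `2 * size`. -/
def reads (C : Circuit V) : ℕ :=
  (univ.filter fun g => (C.src1 g).isLeft).card + (univ.filter fun g => (C.src2 g).isLeft).card

/-- The underlying undirected graph of the circuit: the vertices are the gates, and two gates are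
adjacent when one of them is a source of the other. Input variables are not vertices. -/
def graph (C : Circuit V) : SimpleGraph (Fin C.size) :=
  SimpleGraph.fromRel fun g h => C.src1 g = Sum.inr h ∨ C.src2 g = Sum.inr h

end Circuit

/-- The graph `G` has a tree decomposition of width at most `w`. -/
def TreewidthLE {V : Type} (G : SimpleGraph V) (w : ℕ) : Prop :=
  ∃ (ι : Type) (_ : Finite ι) (T : SimpleGraph ι) (bag : ι → Finset V),
    T.IsTree ∧
    (∀ v, ∃ i, v ∈ bag i) ∧
    (∀ u v, G.Adj u v → ∃ i, u ∈ bag i ∧ v ∈ bag i) ∧
    (∀ v, (T.induce {i | v ∈ bag i}).Preconnected) ∧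
    (∀ i, (bag i).card ≤ w + 1)

/-- A bit as an element of the field with two elements. -/
def bit (a : Bool) : ZMod 2 := if a then 1 else 0

/-- The sign `(-1) ^ a`. -/
def sgn (a : Bool) : ℝ := if a then -1 else 1

/-- The explicit function: the first `n` input bits are the coordinates of an element `ξ` of the
field `K` with `2 ^ n` elements, the last `n` bits are a vector `z`; the value is the scalar product
of `z` with the coordinates of the inverse `ξ⁻¹` (where `0⁻¹ = 0`). -/
noncomputable def invForm {n : ℕ} {K : Type} [Field K] [Algebra (ZMod 2) K]
    (b : Module.Basis (Fin n) (ZMod 2) K) (x : Fin n ⊕ Fin n → Bool) : Bool :=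
  decide (∑ k, bit (x (Sum.inr k)) * b.repr ((∑ i, bit (x (Sum.inl i)) • b i)⁻¹) k = 1)

end Pool.Agent.Lib_MP_22d2c8_tw
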