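import Pool.Agent.Lib_MP_22d2c8_tw.Core

namespace Pool.Agent.Lib_MP_22d2c8_tw

open Finset

theorem reads_all {n : ℕ} {K : Type} [Field K] [Algebra (ZMod 2) K]
    (b : Module.Basis (Fin n) (ZMod 2) K) (C : Circuit (Fin n ⊕ Fin n))
    (hC : C.Computes (invForm b)) (i : Fin n) : ∃ g, C.Reads g (Sum.inl i) := by
  classical
  by_contra hcon
  push Not at hcon
  have hbi : b i ≠ 0 := b.ne_zero i
  have hinv : (b i)⁻¹ ≠ 0 := inv_ne_zero hbi
  obtain ⟨k, hk⟩ : ∃ k, b.repr ((b i)⁻¹) k ≠ 0 := by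
    by_contra h
    push Not at h
    apply hinv
    have : b.repr ((b i)⁻¹) = 0 := by
      ext k
      simpa using h k
    simpa using this
  let u0 : Fin n ⊕ Fin n → Bool := fun v =>
    match v with
    | Sum.inl _ => false
    | Sum.inr k' => decide (k' = k)
  let u1 : Fin n ⊕ Fin n → Bool := fun v =>
    match v with
    | Sum.inl i' => decide (i' = i)
    | Sum.inr k' => decide (k' = k)
  obtain ⟨v0, hv0, ho0⟩ := hC u0
  obtain ⟨v1, hv1, ho1⟩ := hC u1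
  have hagree : ∀ g, ∀ s, (s = C.src1 g ∨ s = C.src2 g) → C.srcVal u0 v0 s = C.srcVal u1 v0 s := by
    intro g s hs
    cases s with
    | inr h => rfl
    | inl v =>
      cases v with
      | inr k' => rfl
      | inl i' =>
        have : i' ≠ i := by
          rintro rfl
          rcases hs with h | h
          · exact hcon g (Or.inl h.symm)
          · exact hcon g (Or.inr h.symm)
        show u0 (Sum.inl i') = u1 (Sum.inl i')
        simp [u0, u1, this]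
  have hv01 : C.IsVal u1 v0 := by
    intro g
    rw [← hagree g _ (Or.inl rfl), ← hagree g _ (Or.inr rfl)]
    exact hv0 g
  have hvv : v0 = v1 := hv01.unique hv1
  have hff : invForm b u0 = invForm b u1 := by rw [← ho0, ← ho1, hvv]
  have h0 : invForm b u0 = false := by
    unfold invForm
    simp [u0, bit]
  have h1 : invForm b u1 = true := by
    unfold invForm
    have hsum : (∑ i', bit (u1 (Sum.inl i')) • b i') = b i := by
      rw [Finset.sum_eq_single i]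
      · simp [u1, bit]
      · intro i' _ hne
        simp [u1, bit, hne]
      · intro h; exact absurd (mem_univ _) h
    rw [hsum]
    rw [decide_eq_true_eq]
    rw [Finset.sum_eq_single k]
    · have h2 : b.repr ((b i)⁻¹) k = 1 := by
        have : ∀ a : ZMod 2, a ≠ 0 → a = 1 := by decide
        exact this _ hk
      rw [h2]
      simp [u1, bit]
    · intro k' _ hne
      simp [u1, bit, hne]
    · intro h; exact absurd (mem_univ _) h
  rw [h0, h1] at hff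
  exact Bool.false_ne_true hff

theorem reads_lower {n : ℕ} {K : Type} [Field K] [Algebra (ZMod 2) K]
    (b : Module.Basis (Fin n) (ZMod 2) K) (C : Circuit (Fin n ⊕ Fin n))
    (hC : C.Computes (invForm b)) : n ≤ C.reads := by
  classical
  have h1 : (univ : Finset (Fin n)) ⊆ (univ : Finset (Fin C.size)).biUnion fun g =>
      univ.filter fun i : Fin n => C.Reads g (Sum.inl i) := by
    intro i _
    obtain ⟨g, hg⟩ := reads_all b C hC i
    rw [mem_biUnion]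
    exact ⟨g, mem_univ _, by simp [hg]⟩
  have h2 := card_le_card h1
  rw [card_univ, Fintype.card_fin] at h2
  refine h2.trans (card_biUnion_le.trans ?_)
  rw [← sum_wt]
  exact sum_le_sum fun g _ => card_reads_left_le C g

theorem pow_aux (P : ℕ) (hP : 6 ≤ P) : 32 * P ^ 6 ≤ 16 ^ P := by
  induction P, hP using Nat.le_induction with
  | base => norm_num
  | succ k hk ih =>
    have h1 : (k + 1) ^ 6 ≤ 16 * k ^ 6 := by
      have h2 : 2 * (k + 1) ≤ 3 * k := by omega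
      have h3 : (2 * (k + 1)) ^ 6 ≤ (3 * k) ^ 6 := Nat.pow_le_pow_left h2 6
      rw [mul_pow, mul_pow] at h3
      have h4 : 2 ^ 6 * (k + 1) ^ 6 ≤ 2 ^ 6 * (16 * k ^ 6) := by
        refine h3.trans ?_
        norm_num
        nlinarith [Nat.zero_le (k ^ 6)]
      exact Nat.le_of_mul_le_mul_left h4 (by norm_num)
    calc 32 * (k + 1) ^ 6 ≤ 32 * (16 * k ^ 6) := Nat.mul_le_mul_left _ h1
      _ = 16 * (32 * k ^ 6) := by ring
      _ ≤ 16 * 16 ^ k := Nat.mul_le_mul_left _ ih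
      _ = 16 ^ (k + 1) := by ring

theorem two_pow_aux (P : ℕ) (hP : 6 ≤ P) : P + 2 ≤ 2 ^ P := by
  induction P, hP using Nat.le_induction with
  | base => norm_num
  | succ k hk ih =>
    have : 2 ^ (k + 1) = 2 * 2 ^ k := by ring
    omega

theorem treewidth_lower_bound {n w : ℕ} (hw : w < n) {K : Type} [Field K] [Algebra (ZMod 2) K]
    (b : Module.Basis (Fin n) (ZMod 2) K) (C : Circuit (Fin n ⊕ Fin n))
    (hC : C.Computes (invForm b)) (hT : TreewidthLE C.graph w) :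
    (n : ℝ) * (Real.logb 2 ((n : ℝ) / (w + 1))) ^ 2 ≤ 2048 * C.reads := by
  classical
  by_contra hcon
  push Not at hcon
  set s : ℝ := (C.reads : ℝ) / 2 with hs
  have hR2 : (C.reads : ℝ) = 2 * s := by rw [hs]; ring
  rw [hR2] at hcon
  set ℓ : ℝ := Real.logb 2 ((n : ℝ) / (w + 1)) with hℓ
  have hn : 0 < n := by omega
  have hnR : (0 : ℝ) < n := by exact_mod_cast hn
  have hwR : (0 : ℝ) < (w : ℝ) + 1 := by positivity
  have hwn : (w : ℝ) + 1 ≤ n := by exact_mod_cast hw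
  have hratio : 1 ≤ (n : ℝ) / (w + 1) := by
    rw [le_div_iff₀ hwR]; linarith
  have hℓ0 : 0 ≤ ℓ := Real.logb_nonneg (by norm_num) hratio
  have hsn : (n : ℝ) ≤ 2 * s := by
    have := reads_lower b C hC
    rw [← hR2]
    exact_mod_cast this
  have hspos : 0 < s := by linarith
  -- ℓ is large
  have hℓ45 : 45 < ℓ := by
    by_contra h
    push Not at h
    have h1 : ℓ ^ 2 ≤ 2025 := by nlinarith
    have h2 : (n : ℝ) * ℓ ^ 2 ≤ n * 2025 := mul_le_mul_of_nonneg_left h1 hnR.le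
    linarith
  set P : ℕ := ⌈ℓ / 8⌉₊ with hP
  have hPge : ℓ / 8 ≤ P := Nat.le_ceil _
  have hPlt : (P : ℝ) < ℓ / 8 + 1 := Nat.ceil_lt_add_one (by positivity)
  have hP6 : 6 ≤ P := by
    have : (5 : ℝ) < P := by linarith
    have : 5 < P := by exact_mod_cast this
    omega
  have hPR6 : (6 : ℝ) ≤ P := by exact_mod_cast hP6
  have hPpos : (0 : ℝ) < P := by linarith
  obtain ⟨p, hp⟩ : ∃ p, P = p + 1 := ⟨P - 1, by omega⟩
  have hpR : (P : ℝ) = (p : ℝ) + 1 := by rw [hp]; push_cast; ring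
  -- size upper bound
  have h64 : 64 * s < n * (P : ℝ) ^ 2 := by
    have h1 : ℓ ^ 2 ≤ (8 * (P : ℝ)) ^ 2 := by
      apply pow_le_pow_left₀ hℓ0
      linarith
    have h2 : (n : ℝ) * ℓ ^ 2 ≤ n * (8 * (P : ℝ)) ^ 2 := mul_le_mul_of_nonneg_left h1 hnR.le
    nlinarith
  -- n is large
  have hnbig : ((w : ℝ) + 1) * 256 ^ P < 256 * n := by
    have h1 : (8 : ℝ) * (P - 1) < ℓ := by linarith
    have h2 : (2 : ℝ) ^ ((8 : ℝ) * ((P : ℝ) - 1)) < (n : ℝ) / (w + 1) := by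
      rw [hℓ] at h1
      exact (Real.lt_logb_iff_rpow_lt (by norm_num) (by positivity)).1 h1
    have h3 : (2 : ℝ) ^ ((8 : ℝ) * ((P : ℝ) - 1)) = 256 ^ P / 256 := by
      have : (8 : ℝ) * ((P : ℝ) - 1) = ((8 * P : ℕ) : ℝ) - ((8 : ℕ) : ℝ) := by push_cast; ring
      rw [this, Real.rpow_sub (by norm_num), Real.rpow_natCast, Real.rpow_natCast, pow_mul]
      norm_num
    rw [h3, lt_div_iff₀ hwR] at h2
    linarith
  -- parameters
  set μ : ℝ := (n : ℝ) / 2 ^ P with hμ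
  have hμpos : 0 < μ := by positivity
  set T : ℝ := μ ^ 2 / (8 * P * s) with hTdef
  have hTpos : 0 < T := by positivity
  have hkey : (32 : ℝ) * (P : ℝ) ^ 6 ≤ 16 ^ P := by exact_mod_cast pow_aux P hP6
  have h16 : (0 : ℝ) < 16 ^ P := by positivity
  have h256 : (256 : ℝ) ^ P = 16 ^ P * 16 ^ P := by rw [← mul_pow]; norm_num
  have h16' : (16 : ℝ) ^ P = 2 ^ P * 2 ^ P * (2 ^ P * 2 ^ P) := by
    rw [← mul_pow, ← mul_pow]; norm_num
  have h2P : (0 : ℝ) < 2 ^ P := by positivity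
  have h2P64 : (64 : ℝ) ≤ 2 ^ P := by
    have : (2 : ℝ) ^ 6 ≤ 2 ^ P := pow_le_pow_right₀ (by norm_num) hP6
    norm_num at this
    exact this
  -- lower bound for n in terms of P
  have hn1 : ((w : ℝ) + 1) * (P : ℝ) ^ 6 * 16 ^ P ≤ 8 * n := by
    have h1 : ((w : ℝ) + 1) * ((P : ℝ) ^ 6 * 32 * 16 ^ P) ≤ ((w : ℝ) + 1) * (16 ^ P * 16 ^ P) := by
      apply mul_le_mul_of_nonneg_left _ hwR.le
      apply mul_le_mul_of_nonneg_right _ h16.le
      linarith
    rw [← h256] at h1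
    nlinarith
  -- T ≥ 2
  have hT2 : 2 ≤ T := by
    rw [hTdef, le_div_iff₀ (by positivity)]
    rw [hμ, div_pow, le_div_iff₀ (by positivity)]
    have h1 : (16 : ℝ) ^ P ≤ 8 * n := by
      refine le_trans ?_ hn1
      have : (1 : ℝ) ≤ ((w : ℝ) + 1) * (P : ℝ) ^ 6 := by
        have h1 : (1 : ℝ) ≤ (w : ℝ) + 1 := by
          have : (0 : ℝ) ≤ w := by positivity
          linarith
        have h2 : (1 : ℝ) ≤ (P : ℝ) ^ 6 := one_le_pow₀ (by linarith)
        nlinarith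
      nlinarith
    -- 2 * (8 P s) * (2^P)^2 ≤ n^2
    have h2 : 2 * (8 * (P : ℝ) * s) * (2 ^ P) ^ 2 ≤ n * ((P : ℝ) ^ 3 * (2 ^ P) ^ 2) := by
      have h3 : 2 * (8 * (P : ℝ) * s) ≤ n * (P : ℝ) ^ 3 := by nlinarith
      calc 2 * (8 * (P : ℝ) * s) * (2 ^ P) ^ 2 ≤ (n * (P : ℝ) ^ 3) * (2 ^ P) ^ 2 :=
            mul_le_mul_of_nonneg_right h3 (by positivity)
        _ = n * ((P : ℝ) ^ 3 * (2 ^ P) ^ 2) := by ring
    have h4 : (P : ℝ) ^ 3 * (2 ^ P) ^ 2 ≤ n := by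
      have hA : (P : ℝ) ^ 3 * (2 ^ P) ^ 2 * 8 ≤ 8 * n := by
        refine le_trans ?_ hn1
        have h5 : (8 : ℝ) ≤ (P : ℝ) ^ 3 := by
          have : (6 : ℝ) ^ 3 ≤ (P : ℝ) ^ 3 := pow_le_pow_left₀ (by norm_num) hPR6 3
          linarith
        have h6 : ((2 : ℝ) ^ P) ^ 2 ≤ 16 ^ P := by
          rw [h16', pow_two]
          have hA1 : (1 : ℝ) ≤ 2 ^ P * 2 ^ P := by
            have : (1 : ℝ) ≤ 2 ^ P := by linarith
            calc (1 : ℝ) = 1 * 1 := by ring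
              _ ≤ 2 ^ P * 2 ^ P := mul_le_mul this this (by norm_num) h2P.le
          calc (2 : ℝ) ^ P * 2 ^ P = 2 ^ P * 2 ^ P * 1 := by ring
            _ ≤ 2 ^ P * 2 ^ P * (2 ^ P * 2 ^ P) := mul_le_mul_of_nonneg_left hA1 (by positivity)
        have h7 : (1 : ℝ) ≤ (w : ℝ) + 1 := by
          have : (0 : ℝ) ≤ w := by positivity
          linarith
        calc (P : ℝ) ^ 3 * (2 ^ P) ^ 2 * 8 ≤ (P : ℝ) ^ 3 * 16 ^ P * (P : ℝ) ^ 3 := by
              apply mul_le_mul _ h5 (by norm_num) (by positivity)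
              exact mul_le_mul_of_nonneg_left h6 (by positivity)
          _ = 1 * ((P : ℝ) ^ 6 * 16 ^ P) := by ring
          _ ≤ ((w : ℝ) + 1) * ((P : ℝ) ^ 6 * 16 ^ P) :=
              mul_le_mul_of_nonneg_right h7 (by positivity)
          _ = ((w : ℝ) + 1) * (P : ℝ) ^ 6 * 16 ^ P := by ring
      linarith
    calc 2 * (8 * (P : ℝ) * s) * (2 ^ P) ^ 2 ≤ n * ((P : ℝ) ^ 3 * (2 ^ P) ^ 2) := h2
      _ ≤ n * n := mul_le_mul_of_nonneg_left h4 hnR.le
      _ = (n : ℝ) ^ 2 := by ring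
  set L : ℕ := ⌈T⌉₊ - 1 with hLdef
  have hceil : 1 ≤ ⌈T⌉₊ := Nat.one_le_iff_ne_zero.2 (Nat.ceil_pos.2 hTpos).ne'
  have hLT : (L : ℝ) < T := by
    have h1 : (⌈T⌉₊ : ℝ) < T + 1 := Nat.ceil_lt_add_one hTpos.le
    have h2 : (L : ℝ) = (⌈T⌉₊ : ℝ) - 1 := by
      rw [hLdef, Nat.cast_sub hceil]; norm_num
    linarith
  have hLge : T / 2 ≤ L := by
    have h1 : T ≤ (⌈T⌉₊ : ℝ) := Nat.le_ceil _
    have h2 : (L : ℝ) = (⌈T⌉₊ : ℝ) - 1 := by
      rw [hLdef, Nat.cast_sub hceil]; norm_num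
    linarith
  have hL1 : 1 ≤ L := by
    have : (1 : ℝ) ≤ L := by linarith
    exact_mod_cast this
  obtain ⟨S, comp, hSL, hcomp, hfrag⟩ := exists_frag_wt C.wt C.graph w hT L
  rw [sum_wt] at hSL
  set q : ℝ := (S.card : ℝ) with hq
  have hq0 : 0 ≤ q := Nat.cast_nonneg _
  -- bound for q
  have hqb : 128 * q ≤ ((w : ℝ) + 1) * (P : ℝ) ^ 5 * (2 ^ P * 2 ^ P) := by
    have h1 : q * L ≤ ((w : ℝ) + 1) * (2 * s) := by
      rw [hq, ← hR2]
      exact_mod_cast hSL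
    have h2 : q * (T / 2) ≤ ((w : ℝ) + 1) * (2 * s) :=
      (mul_le_mul_of_nonneg_left hLge hq0).trans h1
    have h3 : T * (8 * P * s) = μ ^ 2 :=
      div_mul_cancel₀ _ (ne_of_gt (by positivity))
    have h4 : q * μ ^ 2 ≤ 32 * ((w : ℝ) + 1) * P * s ^ 2 := by
      rw [← h3]
      calc q * (T * (8 * P * s)) = (q * (T / 2)) * (16 * P * s) := by ring
        _ ≤ (((w : ℝ) + 1) * (2 * s)) * (16 * P * s) :=
            mul_le_mul_of_nonneg_right h2 (by positivity)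
        _ = 32 * ((w : ℝ) + 1) * P * s ^ 2 := by ring
    have h5 : μ ^ 2 * (2 ^ P * 2 ^ P) = (n : ℝ) ^ 2 := by
      rw [hμ]; field_simp
    have h6 : q * (n : ℝ) ^ 2 ≤ 32 * ((w : ℝ) + 1) * P * s ^ 2 * (2 ^ P * 2 ^ P) := by
      rw [← h5]
      calc q * (μ ^ 2 * (2 ^ P * 2 ^ P)) = (q * μ ^ 2) * (2 ^ P * 2 ^ P) := by ring
        _ ≤ _ := mul_le_mul_of_nonneg_right h4 (by positivity)
    have h7 : 4096 * s ^ 2 ≤ (n : ℝ) ^ 2 * (P : ℝ) ^ 4 := by
      have h8 : (64 * s) ^ 2 ≤ (n * (P : ℝ) ^ 2) ^ 2 :=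
        pow_le_pow_left₀ (by positivity) h64.le 2
      nlinarith
    have h9 : 4096 * (q * (n : ℝ) ^ 2) ≤
        32 * ((w : ℝ) + 1) * P * ((n : ℝ) ^ 2 * (P : ℝ) ^ 4) * (2 ^ P * 2 ^ P) := by
      calc 4096 * (q * (n : ℝ) ^ 2) ≤ 4096 * (32 * ((w : ℝ) + 1) * P * s ^ 2 * (2 ^ P * 2 ^ P)) := by
            linarith
        _ = 32 * ((w : ℝ) + 1) * P * (2 ^ P * 2 ^ P) * (4096 * s ^ 2) := by ring
        _ ≤ 32 * ((w : ℝ) + 1) * P * (2 ^ P * 2 ^ P) * ((n : ℝ) ^ 2 * (P : ℝ) ^ 4) :=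
            mul_le_mul_of_nonneg_left h7 (by positivity)
        _ = _ := by ring
    have hn2 : (0 : ℝ) < (n : ℝ) ^ 2 := by positivity
    have h10 : (32 * (n : ℝ) ^ 2) * (128 * q) ≤
        (32 * (n : ℝ) ^ 2) * (((w : ℝ) + 1) * (P : ℝ) ^ 5 * (2 ^ P * 2 ^ P)) := by
      calc (32 * (n : ℝ) ^ 2) * (128 * q) = 4096 * (q * (n : ℝ) ^ 2) := by ring
        _ ≤ _ := h9
        _ = _ := by ring
    exact le_of_mul_le_mul_left h10 (by positivity)
  -- the main inequality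
  have hmain : 8 * (q + 1) * (P * 2 ^ P) ≤ μ := by
    have h1 : (1 : ℝ) ≤ (w : ℝ) + 1 := by
      have : (0 : ℝ) ≤ w := by positivity
      linarith
    have h2 : (128 : ℝ) ≤ (P : ℝ) ^ 5 * (2 ^ P * 2 ^ P) := by
      have h3 : (1 : ℝ) ≤ (P : ℝ) ^ 5 := one_le_pow₀ (by linarith)
      nlinarith [mul_pos h2P h2P]
    have h3 : 128 * (q + 1) ≤ 2 * (((w : ℝ) + 1) * (P : ℝ) ^ 5 * (2 ^ P * 2 ^ P)) := by
      have : (128 : ℝ) ≤ ((w : ℝ) + 1) * (P : ℝ) ^ 5 * (2 ^ P * 2 ^ P) := by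
        calc (128 : ℝ) ≤ 1 * ((P : ℝ) ^ 5 * (2 ^ P * 2 ^ P)) := by linarith
          _ ≤ ((w : ℝ) + 1) * ((P : ℝ) ^ 5 * (2 ^ P * 2 ^ P)) :=
              mul_le_mul_of_nonneg_right h1 (by positivity)
          _ = _ := by ring
      linarith
    rw [hμ, le_div_iff₀ h2P]
    have h4 : 16 * (8 * (q + 1) * (P * 2 ^ P) * 2 ^ P) ≤
        2 * (((w : ℝ) + 1) * (P : ℝ) ^ 6 * 16 ^ P) := by
      calc 16 * (8 * (q + 1) * (P * 2 ^ P) * 2 ^ P)
          = (128 * (q + 1)) * (P * (2 ^ P * 2 ^ P)) := by ring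
        _ ≤ (2 * (((w : ℝ) + 1) * (P : ℝ) ^ 5 * (2 ^ P * 2 ^ P))) * (P * (2 ^ P * 2 ^ P)) :=
            mul_le_mul_of_nonneg_right h3 (by positivity)
        _ = 2 * (((w : ℝ) + 1) * (P : ℝ) ^ 6 * 16 ^ P) := by rw [h16']; ring
    linarith
  -- the block size
  have hPP : (1 : ℝ) ≤ P * 2 ^ P := by nlinarith
  have hq4 : 4 * q ≤ μ := by
    have : 8 * (q + 1) * 1 ≤ 8 * (q + 1) * (P * 2 ^ P) :=
      mul_le_mul_of_nonneg_left hPP (by linarith)
    linarith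
  set m : ℕ := ⌊(μ / 2 - 2 * q) / P⌋₊ with hm
  have hmle : (m : ℝ) ≤ (μ / 2 - 2 * q) / P := Nat.floor_le (by
    apply div_nonneg _ hPpos.le
    linarith)
  have hmgt : (μ / 2 - 2 * q) / P < m + 1 := Nat.lt_floor_add_one _
  have hcore := core b C hC S comp L p m (by omega) hcomp hfrag hn μ hμpos.le
    (by
      rw [← hpR, hμ, div_eq_mul_inv]
      apply mul_le_mul_of_nonneg_left _ hnR.le
      have h1 : ((2 : ℝ) ^ P)⁻¹ = (2 : ℝ) ^ (-(P : ℝ)) := by
        rw [Real.rpow_neg (by norm_num), Real.rpow_natCast]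
      rw [h1]
      apply Real.rpow_le_rpow_of_exponent_le (by norm_num)
      rw [neg_le_neg_iff, div_le_iff₀ (by positivity), hR2]
      nlinarith)
    (by
      rw [← hpR, hR2]
      have h1 : (L : ℝ) * (8 * P * s) < T * (8 * P * s) :=
        mul_lt_mul_of_pos_right hLT (by positivity)
      have h3 : T * (8 * P * s) = μ ^ 2 :=
        div_mul_cancel₀ _ (ne_of_gt (by positivity))
      calc 4 * (P : ℝ) * L * (2 * s) = (L : ℝ) * (8 * P * s) := by ring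
        _ < μ ^ 2 := by rw [← h3]; exact h1)
    (by
      rw [← hpR]
      rw [le_div_iff₀ hPpos] at hmle
      linarith)
  -- conclusion
  have hexp : m ≤ P + (3 * S.card + 1) * 2 ^ P := by
    have h1 : (2 : ℝ) ^ m ≤ 2 ^ (P + (3 * S.card + 1) * 2 ^ P) := by
      refine hcore.trans ?_
      rw [← hp, pow_add 2 P]
      apply mul_le_mul_of_nonneg_right _ (by positivity)
      have h2 : ((P + 2 : ℕ) : ℝ) ≤ ((2 ^ P : ℕ) : ℝ) := by exact_mod_cast two_pow_aux P hP6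
      push_cast at h2
      linarith
    exact (pow_le_pow_iff_right₀ (by norm_num : (1 : ℝ) < 2)).1 h1
  have hexpR : (m : ℝ) ≤ P + (3 * q + 1) * 2 ^ P := by
    rw [hq]
    exact_mod_cast hexp
  rw [div_lt_iff₀ hPpos] at hmgt
  have h1 : (m + 1 : ℝ) * P ≤ (P + (3 * q + 1) * 2 ^ P + 1) * P :=
    mul_le_mul_of_nonneg_right (by linarith) hPpos.le
  have h2 : (P : ℝ) + 1 ≤ 2 ^ P := by
    have h2 : ((P + 2 : ℕ) : ℝ) ≤ ((2 ^ P : ℕ) : ℝ) := by exact_mod_cast two_pow_aux P hP6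
    push_cast at h2
    linarith
  have h3 : (P + 1 : ℝ) * P ≤ 2 ^ P * P := mul_le_mul_of_nonneg_right h2 hPpos.le
  have h4 : 2 * q ≤ q * (P * 2 ^ P) := by
    have : (2 : ℝ) ≤ P * 2 ^ P := by nlinarith
    nlinarith
  have h5 : μ / 2 < 4 * (q + 1) * (P * 2 ^ P) := by
    calc μ / 2 < (m + 1) * P + 2 * q := by linarith
      _ ≤ (P + (3 * q + 1) * 2 ^ P + 1) * P + q * (P * 2 ^ P) := by linarith
      _ = (P + 1) * P + (4 * q + 1) * (P * 2 ^ P) := by ring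
      _ ≤ 2 ^ P * P + (4 * q + 1) * (P * 2 ^ P) := by linarith
      _ ≤ 4 * (q + 1) * (P * 2 ^ P) := by nlinarith
  linarith

end Pool.Agent.Lib_MP_22d2c8_tw
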