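import Pool.Agent.Lib_MP_22d2c8_tw.Defs
import Pool.Agent.Lib_MP_b5064f_lc.Tree

/-!
# Fragmentation from a tree decomposition
-/

namespace Pool.Agent.Lib_MP_22d2c8_tw

open Finset Pool.Agent.Spanner

section

variable {ι : Type} {T : SimpleGraph ι} {r : ι} {p : ι → ι} {d : ι → ℕ}

/-- `j` is a descendant of `i`. -/
def Sub (p : ι → ι) (i j : ι) : Prop := ∃ k, p^[k] j = i

theorem Sub.refl (i : ι) : Sub p i i := ⟨0, rfl⟩

theorem Sub.step {i j : ι} (h : Sub p i (p j)) : Sub p i j := by
  obtain ⟨k, hk⟩ := h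
  exact ⟨k + 1, by rw [Function.iterate_succ_apply]; exact hk⟩

theorem sub_root (h : IsParent T r p d) : ∀ n j, d j ≤ n → Sub p r j := by
  intro n
  induction n with
  | zero =>
    intro j hj
    by_cases hjr : j = r
    · rw [hjr]; exact Sub.refl r
    · have := h.depth j hjr
      omega
  | succ n ih =>
    intro j hj
    by_cases hjr : j = r
    · rw [hjr]; exact Sub.refl r
    · have := h.depth j hjr
      exact Sub.step (ih _ (by omega))

/-- an edge leaving the descendants of `c` -/
theorem cross (hadj : ∀ x y, T.Adj x y → p x = y ∨ p y = x) {c j k : ι} (hjk : T.Adj j k)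
    (hj : Sub p c j) (hk : ¬ Sub p c k) : j = c ∧ k = p c := by
  rcases hadj j k hjk with h | h
  · obtain ⟨m, hm⟩ := hj
    cases m with
    | zero =>
      have : j = c := hm
      exact ⟨this, by rw [← h, this]⟩
    | succ m =>
      rw [Function.iterate_succ_apply, h] at hm
      exact absurd ⟨m, hm⟩ hk
  · exact absurd (Sub.step (by rw [h]; exact hj)) hk

/-- a connected set of nodes without the parent of `c` which meets the descendants of `c` -/
theorem inside (hadj : ∀ x y, T.Adj x y → p x = y ∨ p y = x) {B : Set ι}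
    (hB : (T.induce B).Preconnected) {c : ι} (hc : p c ∉ B) {j : ι} (hj : j ∈ B)
    (hjc : Sub p c j) : ∀ k ∈ B, Sub p c k := by
  intro k hk
  obtain ⟨w⟩ := hB ⟨j, hj⟩ ⟨k, hk⟩
  have key : ∀ (x y : B), (T.induce B).Walk x y → Sub p c x.val → Sub p c y.val := by
    intro x y w
    induction w with
    | nil => exact id
    | cons hxy w ih =>
      rename_i a b e
      intro h
      apply ih
      by_contra hcon
      have h1 := cross hadj (show T.Adj a.val b.val from hxy) h hcon
      exact hc (h1.2 ▸ b.2)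
  exact key _ _ w hjc

/-- a proper descendant of `i` is a descendant of a child of `i` -/
theorem exists_child (h : IsParent T r p d) {i j : ι} (hj : Sub p i j) (hne : j ≠ i) :
    ∃ c, c ≠ r ∧ p c = i ∧ Sub p c j := by
  classical
  have hex : ∃ k, p^[k] j = i := hj
  obtain ⟨k, hk⟩ : ∃ k, Nat.find hex = k := ⟨_, rfl⟩
  have h1 := Nat.find_spec hex
  rw [hk] at h1
  cases k with
  | zero => exact absurd h1 hne
  | succ k =>
    rw [Function.iterate_succ_apply'] at h1
    refine ⟨p^[k] j, fun hcr => ?_, h1, ⟨k, rfl⟩⟩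
    have h2 := Nat.find_min hex (m := k) (by omega)
    rw [hcr, h.root] at h1
    exact h2 (hcr.trans h1)

end

theorem frag_aux {V : Type} [Fintype V] [DecidableEq V] (G : SimpleGraph V) (w : ℕ)
    {ι : Type} [Finite ι] {T : SimpleGraph ι} {r : ι} {p : ι → ι} {d : ι → ℕ}
    (bag : ι → Finset V) (hp : IsParent T r p d)
    (hadj : ∀ x y, T.Adj x y → p x = y ∨ p y = x)
    (hcov : ∀ v, ∃ i, v ∈ bag i)
    (hedge : ∀ u v, G.Adj u v → ∃ i, u ∈ bag i ∧ v ∈ bag i)
    (hcon : ∀ v, (T.induce {i | v ∈ bag i}).Preconnected)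
    (hw : ∀ i, (bag i).card ≤ w + 1) (L : ℕ) :
    ∀ (n : ℕ) (U : Finset V), U.card ≤ n → ∃ S ⊆ U, S.card * L ≤ (w + 1) * U.card ∧
      ∀ v ∈ U \ S, ∃ A ⊆ U \ S, v ∈ A ∧ A.card ≤ L ∧
        ∀ a ∈ A, ∀ b ∈ U \ S, G.Adj a b → b ∈ A := by
  classical
  have := Fintype.ofFinite ι
  intro n
  induction n with
  | zero =>
    intro U hU
    have hU0 : U = ∅ := Finset.card_eq_zero.1 (by omega)
    subst hU0
    exact ⟨∅, Finset.Subset.refl _, by simp, fun v hv => by simp at hv⟩
  | succ n ih =>
    intro U hU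
    by_cases hL : U.card ≤ L
    · refine ⟨∅, Finset.empty_subset _, by simp, fun v hv => ⟨U \ ∅, Finset.Subset.refl _, hv, ?_,
        fun a _ b hb _ => hb⟩⟩
      rw [Finset.sdiff_empty]
      exact hL
    push Not at hL
    -- the weights
    let W : ι → Finset V := fun i => U.filter (fun v => ∃ j, Sub p i j ∧ v ∈ bag j)
    have hWr : W r = U := by
      apply Finset.filter_true_of_mem
      intro v _
      obtain ⟨j, hj⟩ := hcov v
      exact ⟨j, sub_root hp _ j le_rfl, hj⟩
    obtain ⟨i, hi, hmax⟩ := Finset.exists_max_image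
      (Finset.univ.filter (fun i => L < (W i).card)) d
      ⟨r, by rw [Finset.mem_filter, hWr]; exact ⟨Finset.mem_univ _, hL⟩⟩
    rw [Finset.mem_filter] at hi
    have hchild : ∀ c, c ≠ r → p c = i → (W c).card ≤ L := by
      intro c hcr hc
      by_contra hcon'
      push Not at hcon'
      have h1 := hmax c (by rw [Finset.mem_filter]; exact ⟨Finset.mem_univ _, hcon'⟩)
      have h2 := hp.depth c hcr
      rw [hc] at h2
      omega
    -- the rest
    have hsub : W i ⊆ U := Finset.filter_subset _ _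
    have hbW : bag i ∩ U ⊆ W i := by
      intro v hv
      rw [Finset.mem_inter] at hv
      exact Finset.mem_filter.2 ⟨hv.2, i, Sub.refl i, hv.1⟩
    have hcard : (U \ W i).card + (W i).card = U.card := Finset.card_sdiff_add_card_eq_card hsub
    obtain ⟨S, hSU, hSc, hS⟩ := ih (U \ W i) (by omega)
    refine ⟨S ∪ (bag i ∩ U), ?_, ?_, ?_⟩
    · exact Finset.union_subset (hSU.trans Finset.sdiff_subset) Finset.inter_subset_right
    · have h1 : (S ∪ (bag i ∩ U)).card ≤ S.card + (w + 1) :=
        (Finset.card_union_le _ _).trans (Nat.add_le_add_left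
          ((Finset.card_le_card Finset.inter_subset_left).trans (hw i)) _)
      calc (S ∪ (bag i ∩ U)).card * L ≤ (S.card + (w + 1)) * L := Nat.mul_le_mul_right _ h1
        _ = S.card * L + (w + 1) * L := by ring
        _ ≤ (w + 1) * (U \ W i).card + (w + 1) * L := Nat.add_le_add_right hSc _
        _ = (w + 1) * ((U \ W i).card + L) := by ring
        _ ≤ (w + 1) * U.card := Nat.mul_le_mul_left _ (by omega)
    · -- facts about the vertices outside the set
      have hout : ∀ b ∈ U \ (S ∪ (bag i ∩ U)), b ∉ bag i := by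
        intro b hb hbi
        rw [Finset.mem_sdiff] at hb
        exact hb.2 (Finset.mem_union_right _ (Finset.mem_inter.2 ⟨hbi, hb.1⟩))
      intro v hv
      by_cases hvW : v ∈ W i
      · obtain ⟨-, j, hj, hvj⟩ := Finset.mem_filter.1 hvW
        have hvi := hout v hv
        obtain ⟨c, hcr, hc, hcj⟩ := exists_child hp hj (fun h => hvi (h ▸ hvj))
        refine ⟨(U \ (S ∪ (bag i ∩ U))).filter (fun v => ∃ j, Sub p c j ∧ v ∈ bag j),
          Finset.filter_subset _ _, Finset.mem_filter.2 ⟨hv, j, hcj, hvj⟩, ?_, ?_⟩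
        · refine le_trans (Finset.card_le_card ?_) (hchild c hcr hc)
          exact Finset.filter_subset_filter _ Finset.sdiff_subset
        · intro a ha b hb hab
          obtain ⟨ha1, k, hk, hak⟩ := Finset.mem_filter.1 ha
          obtain ⟨l, hla, hlb⟩ := hedge a b hab
          have h1 := inside hadj (hcon a) (c := c) (by
            rw [hc]; exact hout a ha1) (j := k) hak hk l hla
          exact Finset.mem_filter.2 ⟨hb, l, h1, hlb⟩
      · have hv' : v ∈ (U \ W i) \ S := by
          rw [Finset.mem_sdiff] at hv ⊢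
          refine ⟨Finset.mem_sdiff.2 ⟨hv.1, hvW⟩, fun h => hv.2 (Finset.mem_union_left _ h)⟩
        obtain ⟨A, hA, hvA, hAc, hcl⟩ := hS v hv'
        refine ⟨A, fun a ha => ?_, hvA, hAc, fun a ha b hb hab => ?_⟩
        · have h1 := hA ha
          rw [Finset.mem_sdiff, Finset.mem_sdiff] at h1
          rw [Finset.mem_sdiff, Finset.mem_union]
          refine ⟨h1.1.1, fun h2 => ?_⟩
          rcases h2 with h2 | h2
          · exact h1.2 h2
          · exact h1.1.2 (hbW h2)
        · apply hcl a ha b _ hab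
          have h1 := hA ha
          rw [Finset.mem_sdiff, Finset.mem_sdiff] at h1
          have hbi := hout b hb
          rw [Finset.mem_sdiff, Finset.mem_union] at hb
          rw [Finset.mem_sdiff, Finset.mem_sdiff]
          refine ⟨⟨hb.1, fun hbW' => ?_⟩, fun h => hb.2 (Or.inl h)⟩
          obtain ⟨-, j, hj, hbj⟩ := Finset.mem_filter.1 hbW'
          obtain ⟨c, hcr, hc, hcj⟩ := exists_child hp hj (fun h => hbi (h ▸ hbj))
          obtain ⟨l, hla, hlb⟩ := hedge a b hab
          have h2 := inside hadj (hcon b) (c := c) (by rw [hc]; exact hbi) (j := j) hbj hcj l hlb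
          apply h1.1.2
          refine Finset.mem_filter.2 ⟨h1.1.1, l, ?_, hla⟩
          obtain ⟨k, hk⟩ := h2
          exact ⟨k + 1, by rw [Function.iterate_succ_apply', hk, hc]⟩

theorem exists_frag {V : Type} [Fintype V] [DecidableEq V] (G : SimpleGraph V) (w : ℕ)
    (h : TreewidthLE G w) (L : ℕ) (hL : 1 ≤ L) :
    ∃ (S : Finset V) (comp : V → V), S.card * L ≤ (w + 1) * Fintype.card V ∧
      (∀ u v, u ∉ S → v ∉ S → G.Adj u v → comp u = comp v) ∧
      (∀ q, (univ.filter fun v => v ∉ S ∧ comp v = q).card ≤ L) := by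
  classical
  obtain ⟨ι, _, T, bag, hT, hcov, hedge, hcon, hw⟩ := h
  obtain ⟨r⟩ := hT.connected.nonempty
  obtain ⟨p, d, hp, hadj⟩ := exists_parent hT r
  obtain ⟨S, -, hSc, hS⟩ := frag_aux G w bag hp hadj hcov hedge hcon hw L _ Finset.univ le_rfl
  rw [Finset.card_univ] at hSc
  let H : SimpleGraph {v // v ∉ S} := G.induce {v | v ∉ S}
  let comp : V → V := fun v => if hv : v ∉ S then (H.connectedComponentMk ⟨v, hv⟩).out.val else v
  have hcomp : ∀ (v : V) (hv : v ∉ S), comp v = (H.connectedComponentMk ⟨v, hv⟩).out.val :=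
    fun v hv => dif_pos hv
  refine ⟨S, comp, hSc, fun u v hu hv huv => ?_, fun q => ?_⟩
  · rw [hcomp u hu, hcomp v hv]
    have h1 : H.connectedComponentMk ⟨u, hu⟩ = H.connectedComponentMk ⟨v, hv⟩ := by
      rw [SimpleGraph.ConnectedComponent.eq]
      exact SimpleGraph.Adj.reachable (show H.Adj ⟨u, hu⟩ ⟨v, hv⟩ from huv)
    rw [h1]
  · rcases Finset.eq_empty_or_nonempty (univ.filter fun v => v ∉ S ∧ comp v = q) with h0 | ⟨v0, h0⟩
    · rw [h0]; simp
    · rw [Finset.mem_filter] at h0
      obtain ⟨-, hv0, hq⟩ := h0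
      obtain ⟨A, -, hvA, hAc, hcl⟩ := hS v0 (Finset.mem_sdiff.2 ⟨Finset.mem_univ _, hv0⟩)
      refine le_trans (Finset.card_le_card fun v hv => ?_) hAc
      rw [Finset.mem_filter] at hv
      obtain ⟨-, hvS, hvq⟩ := hv
      rw [hcomp v hvS, ← hq, hcomp v0 hv0] at hvq
      have h1 : H.connectedComponentMk ⟨v, hvS⟩ = H.connectedComponentMk ⟨v0, hv0⟩ := by
        rw [← Quot.out_eq (H.connectedComponentMk ⟨v, hvS⟩),
          ← Quot.out_eq (H.connectedComponentMk ⟨v0, hv0⟩)]
        exact congrArg _ (Subtype.ext hvq)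
      rw [SimpleGraph.ConnectedComponent.eq] at h1
      obtain ⟨walk⟩ := h1.symm
      have key : ∀ (x y : {v // v ∉ S}), H.Walk x y → x.val ∈ A → y.val ∈ A := by
        intro x y w
        induction w with
        | nil => exact id
        | cons hxy w ih =>
          rename_i a b e
          intro h
          exact ih (hcl _ h _ (Finset.mem_sdiff.2 ⟨Finset.mem_univ _, b.2⟩) hxy)
      exact key _ _ walk hvA

end Pool.Agent.Lib_MP_22d2c8_tw
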