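import Pool.Agent.Lib_MP_22d2c8_tw.Defs

/-!
# A circuit with a separator is a short sum of cylinder intersections
-/

namespace Pool.Agent.Lib_MP_22d2c8_tw

open Finset

namespace Circuit

variable {V : Type} (C : Circuit V)

theorem IsVal.unique {C : Circuit V} {x : V → Bool} {v v' : Fin C.size → Bool}
    (h : C.IsVal x v) (h' : C.IsVal x v') : v = v' := by
  have key : ∀ k : ℕ, ∀ g : Fin C.size, g.val = k → v g = v' g := by
    intro k
    induction k using Nat.strong_induction_on with
    | _ k ih =>
      intro g hg
      rw [h g, h' g]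
      have e1 : C.srcVal x v (C.src1 g) = C.srcVal x v' (C.src1 g) := by
        cases hs : C.src1 g with
        | inl i => rfl
        | inr j =>
          have hlt := C.src1_lt g j hs
          exact ih j.val (by rw [← hg]; exact hlt) j rfl
      have e2 : C.srcVal x v (C.src2 g) = C.srcVal x v' (C.src2 g) := by
        cases hs : C.src2 g with
        | inl i => rfl
        | inr j =>
          have hlt := C.src2_lt g j hs
          exact ih j.val (by rw [← hg]; exact hlt) j rfl
      rw [e1, e2]
  funext g
  exact key g.val g rfl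

/-- The gates among the sources of `g`. -/
def kid (s : V ⊕ Fin C.size) : Finset (Fin C.size) :=
  match s with
  | Sum.inl _ => ∅
  | Sum.inr h => {h}

theorem card_kid_le (s : V ⊕ Fin C.size) : (C.kid s).card ≤ 1 := by
  cases s <;> simp [kid]

/-- The separator together with the gates feeding it and the output. -/
def guess (S : Finset (Fin C.size)) : Finset (Fin C.size) :=
  insert C.out (S ∪ S.biUnion fun g => C.kid (C.src1 g) ∪ C.kid (C.src2 g))

theorem card_guess_le (S : Finset (Fin C.size)) : (C.guess S).card ≤ 3 * S.card + 1 := by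
  classical
  unfold guess
  refine (card_insert_le _ _).trans ?_
  have h1 : (S.biUnion fun g => C.kid (C.src1 g) ∪ C.kid (C.src2 g)).card ≤ S.card * 2 := by
    apply card_biUnion_le_card_mul
    intro g _
    refine (card_union_le _ _).trans ?_
    have := C.card_kid_le (C.src1 g)
    have := C.card_kid_le (C.src2 g)
    omega
  have h2 := card_union_le S (S.biUnion fun g => C.kid (C.src1 g) ∪ C.kid (C.src2 g))
  omega

theorem mem_guess_of_mem {S : Finset (Fin C.size)} {g} (h : g ∈ S) : g ∈ C.guess S := by
  unfold guess
  exact mem_insert_of_mem (mem_union_left _ h)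

theorem out_mem_guess (S : Finset (Fin C.size)) : C.out ∈ C.guess S := by
  unfold guess
  exact mem_insert_self _ _

theorem src1_mem_guess {S : Finset (Fin C.size)} {g h} (hg : g ∈ S) (hs : C.src1 g = Sum.inr h) :
    h ∈ C.guess S := by
  unfold guess
  refine mem_insert_of_mem (mem_union_right _ (mem_biUnion.2 ⟨g, hg, mem_union_left _ ?_⟩))
  rw [hs]; simp [kid]

theorem src2_mem_guess {S : Finset (Fin C.size)} {g h} (hg : g ∈ S) (hs : C.src2 g = Sum.inr h) :
    h ∈ C.guess S := by
  unfold guess
  refine mem_insert_of_mem (mem_union_right _ (mem_biUnion.2 ⟨g, hg, mem_union_right _ ?_⟩))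
  rw [hs]; simp [kid]

theorem adj_of_src1 {g h} (hs : C.src1 g = Sum.inr h) : C.graph.Adj g h := by
  unfold graph
  rw [SimpleGraph.fromRel_adj]
  have := C.src1_lt g h hs
  exact ⟨ne_of_gt this, Or.inl (Or.inl hs)⟩

theorem adj_of_src2 {g h} (hs : C.src2 g = Sum.inr h) : C.graph.Adj g h := by
  unfold graph
  rw [SimpleGraph.fromRel_adj]
  have := C.src2_lt g h hs
  exact ⟨ne_of_gt this, Or.inl (Or.inr hs)⟩

theorem srcVal_congr {x x' : V → Bool} {v v' : Fin C.size → Bool} {s : V ⊕ Fin C.size}
    (h1 : ∀ i, s = Sum.inl i → x i = x' i) (h2 : ∀ h, s = Sum.inr h → v h = v' h) :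
    C.srcVal x v s = C.srcVal x' v' s := by
  cases s with
  | inl i => exact h1 i rfl
  | inr h => exact h2 h rfl

end Circuit

/-- Extension of a guess by `false`. -/
def extGuess {s : ℕ} (S' : Finset (Fin s)) (a : {g // g ∈ S'} → Bool) (g : Fin s) : Bool :=
  if h : g ∈ S' then a ⟨g, h⟩ else false

theorem circuit_sum {V Y : Type} (C : Circuit V) (p : ℕ)
    (S : Finset (Fin C.size)) (χ : Fin C.size → Fin p)
    (hχ : ∀ g h, g ∉ S → h ∉ S → C.graph.Adj g h → χ g = χ h)
    (X : (Fin p → Y) → V → Bool)
    (hX1 : ∀ g v, g ∉ S → (C.src1 g = Sum.inl v ∨ C.src2 g = Sum.inl v) →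
      ∀ x x', (∀ i, i ≠ χ g → x i = x' i) → X x v = X x' v)
    (hX2 : ∀ g v, g ∈ S → (C.src1 g = Sum.inl v ∨ C.src2 g = Sum.inl v) →
      ∀ x x', X x v = X x' v)
    (f : (V → Bool) → Bool) (hf : C.Computes f) :
    ∃ (A : Type) (_ : Fintype A) (c : A → ℝ) (φ : A → Fin p → (Fin p → Y) → ℝ),
      Fintype.card A ≤ 2 ^ (3 * S.card + 1) ∧
      (∀ a, |c a| ≤ 1) ∧ (∀ a j x, |φ a j x| ≤ 1) ∧
      (∀ a j x x', (∀ i, i ≠ j → x i = x' i) → φ a j x = φ a j x') ∧
      (∀ x, sgn (f (X x)) = ∑ a, c a * ∏ j, φ a j x) := by
  classical
  set S' := C.guess S with hS'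
  -- the consistency condition on a guess
  let cons : ({g // g ∈ S'} → Bool) → Prop := fun a =>
    ∀ x : Fin p → Y, ∀ g ∈ S, extGuess S' a g =
      C.op g (C.srcVal (X x) (extGuess S' a) (C.src1 g))
        (C.srcVal (X x) (extGuess S' a) (C.src2 g))
  let wit : ({g // g ∈ S'} → Bool) → Fin p → (Fin p → Y) → (Fin C.size → Bool) → Prop :=
    fun a j x u => (∀ g ∈ S, u g = extGuess S' a g) ∧
      (∀ g, g ∉ S → χ g = j → u g =
        C.op g (C.srcVal (X x) u (C.src1 g)) (C.srcVal (X x) u (C.src2 g))) ∧
      (∀ g ∈ S', g ∉ S → χ g = j → u g = extGuess S' a g)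
  refine ⟨{g // g ∈ S'} → Bool, inferInstance,
    fun a => if cons a then sgn (a ⟨C.out, C.out_mem_guess S⟩) else 0,
    fun a j x => if ∃ u, wit a j x u then 1 else 0, ?_, ?_, ?_, ?_, ?_⟩
  · rw [Fintype.card_fun, Fintype.card_bool, Fintype.card_coe]
    exact Nat.pow_le_pow_right (by norm_num) (C.card_guess_le S)
  · intro a
    dsimp only
    split_ifs with h
    · unfold sgn; split_ifs <;> simp
    · simp
  · intro a j x
    dsimp only
    split_ifs <;> simp
  · intro a j x x' hxx'
    have key : ∀ x x' : Fin p → Y, (∀ i, i ≠ j → x i = x' i) → (∃ u, wit a j x u) →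
        ∃ u, wit a j x' u := by
      rintro x x' hx ⟨u, h1, h2, h3⟩
      refine ⟨u, h1, ?_, h3⟩
      intro g hg hgj
      rw [h2 g hg hgj]
      congr 1
      · apply C.srcVal_congr
        · intro i hi
          exact hX1 g i hg (Or.inl hi) x x' (by rw [hgj]; exact hx)
        · intro h _; rfl
      · apply C.srcVal_congr
        · intro i hi
          exact hX1 g i hg (Or.inr hi) x x' (by rw [hgj]; exact hx)
        · intro h _; rfl
    have : (∃ u, wit a j x u) ↔ ∃ u, wit a j x' u :=
      ⟨key x x' hxx', key x' x (fun i hi => (hxx' i hi).symm)⟩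
    simp only [this]
  · intro x
    obtain ⟨v, hv, hvout⟩ := hf (X x)
    let a0 : {g // g ∈ S'} → Bool := fun g => v g.1
    have ext0 : ∀ g ∈ S', extGuess S' a0 g = v g := by
      intro g hg
      simp [extGuess, hg, a0]
    -- the true guess is consistent
    have cons0 : cons a0 := by
      intro x' g hg
      rw [ext0 g (C.mem_guess_of_mem hg), hv g]
      congr 1
      · apply C.srcVal_congr
        · intro i hi
          exact hX2 g i hg (Or.inl hi) x x'
        · intro h hh
          exact (ext0 h (C.src1_mem_guess hg hh)).symm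
      · apply C.srcVal_congr
        · intro i hi
          exact hX2 g i hg (Or.inr hi) x x'
        · intro h hh
          exact (ext0 h (C.src2_mem_guess hg hh)).symm
    have wit0 : ∀ j, wit a0 j x v := by
      intro j
      refine ⟨fun g hg => (ext0 g (C.mem_guess_of_mem hg)).symm, fun g _ _ => hv g,
        fun g hg _ _ => (ext0 g hg).symm⟩
    -- uniqueness
    have uniq : ∀ a, cons a → (∀ j, ∃ u, wit a j x u) → a = a0 := by
      intro a ha hw
      choose u hu using hw
      let val : Fin C.size → Bool := fun g => if g ∈ S then extGuess S' a g else u (χ g) g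
      have valS : ∀ g ∈ S, val g = extGuess S' a g := fun g hg => by simp [val, hg]
      have valN : ∀ g, g ∉ S → val g = u (χ g) g := fun g hg => by simp [val, hg]
      have valS' : ∀ g ∈ S', val g = extGuess S' a g := by
        intro g hg
        by_cases h : g ∈ S
        · exact valS g h
        · rw [valN g h]
          exact (hu (χ g)).2.2 g hg h rfl
      have hval : C.IsVal (X x) val := by
        intro g
        by_cases hg : g ∈ S
        · rw [valS g hg, ha x g hg]
          congr 1
          · apply C.srcVal_congr
            · intro i _; rfl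
            · intro h hh
              exact (valS' h (C.src1_mem_guess hg hh)).symm
          · apply C.srcVal_congr
            · intro i _; rfl
            · intro h hh
              exact (valS' h (C.src2_mem_guess hg hh)).symm
        · rw [valN g hg, (hu (χ g)).2.1 g hg rfl]
          have aux : ∀ h, C.graph.Adj g h → u (χ g) h = val h := by
            intro h hadj
            by_cases hh : h ∈ S
            · rw [valS h hh]
              exact (hu (χ g)).1 h hh
            · rw [valN h hh, hχ g h hg hh hadj]
          congr 1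
          · apply C.srcVal_congr
            · intro i _; rfl
            · intro h hh
              exact aux h (C.adj_of_src1 hh)
          · apply C.srcVal_congr
            · intro i _; rfl
            · intro h hh
              exact aux h (C.adj_of_src2 hh)
      have hvv : val = v := hval.unique hv
      funext g
      have h1 := valS' g.1 g.2
      rw [hvv] at h1
      show a g = v g.1
      rw [h1]
      have : g.1 ∈ S' := g.2
      simp [extGuess, this]
    rw [Finset.sum_eq_single a0]
    · dsimp only
      rw [if_pos cons0]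
      have : (∏ j, if ∃ u, wit a0 j x u then (1 : ℝ) else 0) = 1 := by
        apply Finset.prod_eq_one
        intro j _
        rw [if_pos ⟨v, wit0 j⟩]
      rw [this, mul_one, ← hvout]
    · intro a _ hne
      dsimp only
      by_cases ha : cons a
      · have : ∃ j, ¬ ∃ u, wit a j x u := by
          by_contra hcon
          push Not at hcon
          exact hne (uniq a ha hcon)
        obtain ⟨j, hj⟩ := this
        have : (∏ j, if ∃ u, wit a j x u then (1 : ℝ) else 0) = 0 :=
          Finset.prod_eq_zero (Finset.mem_univ j) (by rw [if_neg hj])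
        rw [this, mul_zero]
      · rw [if_neg ha, zero_mul]
    · intro h
      exact absurd (Finset.mem_univ _) h

end Pool.Agent.Lib_MP_22d2c8_tw
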